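import Mathlib

/-!
# Edge-disjoint cycles: definitions
-/

namespace Pool.Agent.DC31

/-- `G` contains `k` pairwise edge-disjoint cycles. -/
def HasCycles {V : Type*} (G : SimpleGraph V) (k : ℕ) : Prop :=
  ∃ (u : Fin k → V) (c : ∀ i, G.Walk (u i) (u i)), (∀ i, (c i).IsCycle) ∧
    ∀ i j, i ≠ j → ∀ e ∈ (c i).edges, e ∉ (c j).edges

/-- `ex'(n,k)`: the largest number of edges of a simple graph on `n` vertices which does not
contain `k` pairwise edge-disjoint cycles. -/
noncomputable def exPrime (n k : ℕ) : ℕ :=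
  sSup {e | ∃ G : SimpleGraph (Fin n), ¬ HasCycles G k ∧ e = G.edgeSet.ncard}

lemma bddAbove_exPrime (n k : ℕ) :
    BddAbove {e | ∃ G : SimpleGraph (Fin n), ¬ HasCycles G k ∧ e = G.edgeSet.ncard} := by
  refine ⟨Nat.card (Sym2 (Fin n)), ?_⟩
  rintro e ⟨G, _, rfl⟩
  exact Set.ncard_le_card _

lemma le_exPrime {n k : ℕ} (G : SimpleGraph (Fin n)) (h : ¬ HasCycles G k) :
    G.edgeSet.ncard ≤ exPrime n k :=
  le_csSup (bddAbove_exPrime n k) ⟨G, h, rfl⟩

/-- `HasCycles` passes along injective homomorphisms. -/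
lemma HasCycles.map {V W : Type*} {G : SimpleGraph V} {G' : SimpleGraph W} {k : ℕ}
    (h : HasCycles G k) (f : G →g G') (hf : Function.Injective f) : HasCycles G' k := by
  obtain ⟨u, c, hc, hd⟩ := h
  refine ⟨fun i => f (u i), fun i => (c i).map f, fun i => ?_, fun i j hij e he he' => ?_⟩
  · exact (SimpleGraph.Walk.isCycle_map_iff_of_injective hf).2 (hc i)
  · rw [SimpleGraph.Walk.edges_map, List.mem_map] at he he'
    obtain ⟨a, ha, rfl⟩ := he
    obtain ⟨b, hb, hab⟩ := he'
    have := Sym2.map.injective hf hab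
    subst this
    exact hd i j hij _ ha hb

/-- A graph on any finite vertex set of size `n` gives a lower bound. -/
lemma le_exPrime' {V : Type*} [Fintype V] {n k : ℕ} (hV : Fintype.card V = n)
    (G : SimpleGraph V) (h : ¬ HasCycles G k) : G.edgeSet.ncard ≤ exPrime n k := by
  have e : V ≃ Fin n := Fintype.equivFinOfCardEq hV
  have I : G ≃g G.map e.toEmbedding := SimpleGraph.Iso.map e G
  have h1 : ¬ HasCycles (G.map e.toEmbedding) k := fun hc =>
    h (hc.map I.symm.toHom I.symm.injective)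
  have h2 : G.edgeSet.ncard = (G.map e.toEmbedding).edgeSet.ncard := by
    rw [Set.ncard_def, Set.ncard_def]
    exact congrArg _ (Set.encard_congr I.mapEdgeSet)
  rw [h2]
  exact le_exPrime _ h1

/-- Upper bounds for `ex'`. -/
lemma exPrime_le {n k B : ℕ} (h : ∀ G : SimpleGraph (Fin n), ¬ HasCycles G k →
    G.edgeSet.ncard ≤ B) : exPrime n k ≤ B := by
  rcases Set.eq_empty_or_nonempty
    {e | ∃ G : SimpleGraph (Fin n), ¬ HasCycles G k ∧ e = G.edgeSet.ncard} with h0 | h0
  · rw [exPrime, h0]; simp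
  · refine csSup_le h0 ?_
    rintro e ⟨G, hG, rfl⟩
    exact h G hG

end Pool.Agent.DC31
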