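import Pool.Agent.DC31.Graph

/-!
# The lower bound with logarithms
-/

namespace Pool.Agent.DC31

open Finset

lemma factorial_le_D (j : ℕ) : j.factorial ≤ D j := by
  induction j with
  | zero => simp [D]
  | succ j ih =>
    rw [Nat.factorial_succ]
    simp only [D, prod_range_succ] at ih ⊢
    rw [mul_comm]
    exact Nat.mul_le_mul ih (by omega)

lemma pow_le_D (j : ℕ) : ((j : ℝ) / 4) ^ j ≤ D j := by
  have h1 := Real.pow_div_factorial_le_exp (j : ℝ) (by positivity) j
  have h2 : Real.exp (j : ℝ) ≤ 4 ^ j := by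
    have : Real.exp (j : ℝ) = Real.exp 1 ^ j := by
      rw [← Real.exp_nat_mul, mul_one]
    rw [this]
    apply pow_le_pow_left₀ (Real.exp_pos 1).le
    have := Real.exp_one_lt_d9
    linarith
  have h3 : (0 : ℝ) < j.factorial := by exact_mod_cast j.factorial_pos
  have h4 : ((j : ℝ) / 4) ^ j ≤ j.factorial := by
    rw [div_pow, div_le_iff₀ (by positivity)]
    have := (div_le_iff₀ h3).1 (h1.trans h2)
    linarith
  exact h4.trans (by exact_mod_cast factorial_le_D j)

lemma logb_le_mul {x : ℝ} (hx : 0 < x) : Real.logb 2 x ≤ 0.73 * x := by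
  have h1 := Real.log_le_sub_one_of_pos (x := x / 2) (by positivity)
  rw [Real.log_div hx.ne' (by norm_num)] at h1
  have h2 := Real.log_two_gt_d9
  have h3 := Real.log_two_lt_d9
  rw [Real.logb, div_le_iff₀ (by linarith)]
  nlinarith

/-- comparison through logarithms -/
lemma cond_of_log {k M j : ℕ} (hM : 1 ≤ M) (hj : 1 ≤ j)
    (h : (M : ℝ) + j * (3 + Real.logb 2 (((M : ℝ) + j) / j)) < k * Real.logb 2 (2 * j + 1)) :
    2 ^ M * (2 * (M + j)) ^ j < (2 * j + 1) ^ k * D j := by
  have hj0 : (0 : ℝ) < j := by exact_mod_cast hj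
  have hM0 : (0 : ℝ) < M := by exact_mod_cast hM
  have hreal : (2 : ℝ) ^ M * (2 * ((M : ℝ) + j)) ^ j < (2 * (j : ℝ) + 1) ^ k * D j := by
    have hD := pow_le_D j
    refine lt_of_lt_of_le ?_ (mul_le_mul_of_nonneg_left hD (by positivity))
    rw [← Real.logb_lt_logb_iff (b := 2) (by norm_num) (by positivity) (by positivity)]
    rw [Real.logb_mul (by positivity) (by positivity), Real.logb_mul (by positivity) (by positivity),
      Real.logb_pow, Real.logb_pow, Real.logb_pow, Real.logb_pow,
      Real.logb_self_eq_one (by norm_num), Real.logb_mul (by norm_num) (by positivity),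
      Real.logb_self_eq_one (by norm_num), Real.logb_div (by positivity) (by norm_num)]
    rw [Real.logb_div (by positivity) (by positivity)] at h
    have h4 : Real.logb 2 4 = 2 := by
      have : (4 : ℝ) = 2 ^ (2 : ℕ) := by norm_num
      rw [this, Real.logb_pow, Real.logb_self_eq_one (by norm_num)]; norm_num
    rw [h4]
    linarith
  have : (((2 ^ M * (2 * (M + j)) ^ j : ℕ)) : ℝ) < (((2 * j + 1) ^ k * D j : ℕ) : ℝ) := by
    push_cast
    exact hreal
  exact_mod_cast this

/-- the trivial range -/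
lemma le_exPrime_self {n k : ℕ} (hk : 2 ≤ k) (hn : 4 ≤ n) : n ≤ exPrime n k := by
  have := exPrime_lower_finite n k 1 1 le_rfl (by omega) (by
    have h9 : 3 ^ 2 ≤ 3 ^ k := Nat.pow_le_pow_right (by norm_num) hk
    have h3 : (2 * 1 + 1 : ℕ) = 3 := rfl
    rw [h3]
    simp only [D, prod_range_one]
    omega)
  omega

/-- **Lower bound in the sparse range.** -/
theorem sparse_lower (n k : ℕ) (hk : 4 ≤ k) (hn : 4 * k * Real.logb 2 k ≤ n) :
    n + k * (Real.logb 2 k - Real.logb 2 (Real.logb 2 (Real.logb 2 k)) - 8) ≤ exPrime n k := by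
  set L := Real.logb 2 k with hL
  set l := Real.logb 2 L with hl
  set ll := Real.logb 2 l with hll
  have hk0 : (0 : ℝ) < k := by positivity
  have hk4 : (4 : ℝ) ≤ k := by exact_mod_cast hk
  have hL2 : 2 ≤ L := by
    rw [hL, Real.le_logb_iff_rpow_le (by norm_num) hk0]
    norm_num
    exact hk
  have hl1 : 1 ≤ l := by
    rw [hl, Real.le_logb_iff_rpow_le (by norm_num) (by linarith)]
    norm_num
    exact hL2
  have hll0 : 0 ≤ ll := Real.logb_nonneg (by norm_num) hl1
  have hLk : L ≤ 0.73 * k := logb_le_mul hk0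
  have hlL : l ≤ 0.73 * L := logb_le_mul (by linarith)
  have hlll : ll ≤ 0.73 * l := logb_le_mul (by linarith)
  have hn4 : 4 ≤ n := by
    have : (4 : ℝ) ≤ n := by nlinarith
    exact_mod_cast this
  by_cases hsmall : k * (L - ll - 7) < 1
  · have h1 : ((n : ℕ) : ℝ) ≤ exPrime n k := by exact_mod_cast le_exPrime_self (by omega) hn4
    nlinarith
  · push Not at hsmall
    -- main case
    set M := ⌊k * (L - ll - 7)⌋₊ with hMdef
    have hM1 : 1 ≤ M := by
      rw [hMdef, Nat.one_le_floor_iff]
      exact hsmall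
    have hMle : (M : ℝ) ≤ k * (L - ll - 7) := Nat.floor_le (by linarith)
    have hMgt : k * (L - ll - 7) < M + 1 := Nat.lt_floor_add_one _
    have hMkL : (M : ℝ) ≤ k * L := by nlinarith
    set j := ⌈(k : ℝ) / l⌉₊ with hjdef
    have hkl : 0 < (k : ℝ) / l := by positivity
    have hj1 : 1 ≤ j := Nat.one_le_ceil_iff.2 hkl
    have hjge : (k : ℝ) / l ≤ j := Nat.le_ceil _
    have hjlt : (j : ℝ) < k / l + 1 := Nat.ceil_lt_add_one hkl.le
    have hj0 : (0 : ℝ) < j := by exact_mod_cast hj1
    have hM0 : (0 : ℝ) < M := by exact_mod_cast hM1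
    have hkjl : (k : ℝ) ≤ j * l := by
      rwa [div_le_iff₀ (by linarith)] at hjge
    have hratio : ((M : ℝ) + j) / j ≤ 2 * (L * l) := by
      rw [div_le_iff₀ hj0]
      have h1 : (k : ℝ) * L ≤ j * l * L := mul_le_mul_of_nonneg_right hkjl (by linarith)
      have h2 : (1 : ℝ) ≤ L * l := by nlinarith
      nlinarith
    have hlog : Real.logb 2 (((M : ℝ) + j) / j) ≤ 1 + l + ll := by
      calc Real.logb 2 (((M : ℝ) + j) / j) ≤ Real.logb 2 (2 * (L * l)) :=
            Real.logb_le_logb_of_le (by norm_num) (by positivity) hratio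
        _ = 1 + l + ll := by
            rw [Real.logb_mul (by norm_num) (by positivity), Real.logb_mul (by positivity)
              (by positivity), Real.logb_self_eq_one (by norm_num)]
            ring
    have hcond : (M : ℝ) + j * (3 + Real.logb 2 (((M : ℝ) + j) / j)) <
        k * Real.logb 2 (2 * j + 1) := by
      have h1 : (j : ℝ) * (3 + Real.logb 2 (((M : ℝ) + j) / j)) ≤ (k / l + 1) * (4 + l + ll) :=
        mul_le_mul hjlt.le (by linarith) (by
          have : 0 ≤ Real.logb 2 (((M : ℝ) + j) / j) := Real.logb_nonneg (by norm_num)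
            (by rw [le_div_iff₀ hj0]; linarith)
          linarith) (by positivity)
      have h2 : (4 + l + ll) ≤ 5 * l := by
        -- ll ≤ 4 (l - 1)
        have h3 := Real.log_le_sub_one_of_pos (x := l) (by linarith)
        have h4 := Real.log_two_gt_d9
        have h5 : ll ≤ 4 * (l - 1) := by
          rw [hll, Real.logb, div_le_iff₀ (by linarith)]
          nlinarith
        linarith
      have h3 : (k / l + 1) * (4 + l + ll) ≤ 5 * k + 5 * l := by
        calc (k / l + 1) * (4 + l + ll) ≤ (k / l + 1) * (5 * l) :=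
              mul_le_mul_of_nonneg_left h2 (by positivity)
          _ = 5 * k + 5 * l := by field_simp
      have h4 : (1 + L - ll) ≤ Real.logb 2 (2 * j + 1) := by
        have : 2 * ((k : ℝ) / l) ≤ 2 * j + 1 := by linarith
        calc (1 + L - ll) = Real.logb 2 (2 * ((k : ℝ) / l)) := by
              rw [Real.logb_mul (by norm_num) (by positivity), Real.logb_div (by positivity)
                (by positivity), Real.logb_self_eq_one (by norm_num)]
              ring
          _ ≤ _ := Real.logb_le_logb_of_le (by norm_num) (by positivity) this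
      have h5 : (k : ℝ) * (1 + L - ll) ≤ k * Real.logb 2 (2 * j + 1) :=
        mul_le_mul_of_nonneg_left h4 hk0.le
      nlinarith
    have hfin := exPrime_lower_finite n k M j hM1 (by
      have : (4 * M : ℝ) ≤ n := by linarith
      exact_mod_cast this) (cond_of_log hM1 hj1 hcond)
    have hfin' : ((n + M - 1 : ℕ) : ℝ) ≤ exPrime n k := by exact_mod_cast hfin
    rw [Nat.cast_sub (by omega)] at hfin'
    push_cast at hfin'
    nlinarith

/-- **Asymptotic form.** -/
theorem sparse_lower_asym (ε : ℝ) (hε : 0 < ε) : ∃ K : ℕ, ∀ k : ℕ, K ≤ k → ∀ n : ℕ,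
    4 * k * Real.logb 2 k ≤ n → n + (1 - ε) * k * Real.logb 2 k ≤ exPrime n k := by
  have h1 : ∀ᶠ x : ℝ in Filter.atTop, Real.log x ≤ ε / 4 * x := by
    have := (Real.isLittleO_log_id_atTop).bound (c := ε / 4) (by positivity)
    filter_upwards [this, Filter.eventually_ge_atTop (1 : ℝ)] with x hx hx1
    simp only [id, Real.norm_eq_abs] at hx
    rw [abs_of_nonneg (Real.log_nonneg hx1), abs_of_nonneg (by linarith)] at hx
    exact hx
  have h2 : ∀ᶠ x : ℝ in Filter.atTop, 16 ≤ ε * x :=
    (Filter.tendsto_id.const_mul_atTop hε).eventually_ge_atTop 16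
  have h3 : Filter.Tendsto (fun k : ℕ => Real.logb 2 (k : ℝ)) Filter.atTop Filter.atTop :=
    (Real.tendsto_logb_atTop (by norm_num)).comp tendsto_natCast_atTop_atTop
  obtain ⟨K, hK⟩ := Filter.eventually_atTop.1 ((h3.eventually (h1.and h2)).and
    (Filter.eventually_ge_atTop (4 : ℕ)))
  refine ⟨K, fun k hk n hn => ?_⟩
  obtain ⟨⟨e1, e2⟩, e3⟩ := hK k hk
  have hmain := sparse_lower n k e3 hn
  have hk0 : (0 : ℝ) < k := by positivity
  have hk4 : (4 : ℝ) ≤ k := by exact_mod_cast e3
  have hL2 : 2 ≤ Real.logb 2 k := by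
    rw [Real.le_logb_iff_rpow_le (by norm_num) hk0]
    norm_num
    exact e3
  have hl1 : 1 ≤ Real.logb 2 (Real.logb 2 k) := by
    rw [Real.le_logb_iff_rpow_le (by norm_num) (by linarith)]
    norm_num
    exact hL2
  have hlll := logb_le_mul (x := Real.logb 2 (Real.logb 2 k)) (by linarith)
  have h4 := Real.log_two_gt_d9
  have hlL : Real.logb 2 (Real.logb 2 k) ≤ ε / 2 * Real.logb 2 k := by
    rw [Real.logb, div_le_iff₀ (by linarith)]
    have : 0 ≤ ε * Real.logb 2 k := by positivity
    nlinarith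
  have h5 : Real.logb 2 (Real.logb 2 (Real.logb 2 k)) + 8 ≤ ε * Real.logb 2 k := by
    nlinarith
  nlinarith

end Pool.Agent.DC31
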