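import Pool.Agent.DC31.Lower

/-!
# `ex'(n,k)` in the dense ranges
-/

namespace Pool.Agent.DC31

open Finset

/-- **General upper bound.** -/
theorem upper_real (n k r : ℕ) (hk : 1 ≤ k) (hr : 1 ≤ r) :
    (exPrime n k : ℝ) ≤ 2 * r * (k - 1) + (n : ℝ) ^ (1 + 1 / (r : ℝ)) + n := by
  have hr0 : (0 : ℝ) < r := by exact_mod_cast hr
  rcases Nat.eq_zero_or_pos n with rfl | hn
  · have h := exPrime_upper 0 k r 1 hk (by simp)
    have h' : ((exPrime 0 k : ℕ) : ℝ) ≤ ((1 * 0 + 2 * r * (k - 1) : ℕ) : ℝ) := by exact_mod_cast h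
    push_cast [Nat.cast_sub hk] at h'
    have h2 : (0 : ℝ) ≤ ((0 : ℕ) : ℝ) ^ (1 + 1 / (r : ℝ)) := by positivity
    push_cast at h2 ⊢
    linarith
  have hn0 : (0 : ℝ) < n := by exact_mod_cast hn
  set y : ℝ := (n : ℝ) ^ (1 / (r : ℝ)) with hy
  have hy0 : 0 ≤ y := by positivity
  have hyr : y ^ r = n := by
    rw [hy, ← Real.rpow_natCast, ← Real.rpow_mul hn0.le]
    rw [one_div, inv_mul_cancel₀ hr0.ne', Real.rpow_one]
  set D := ⌊y⌋₊ + 1 with hD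
  have h1 : y < D := by rw [hD]; push_cast; exact Nat.lt_floor_add_one y
  have h2 : n < D ^ r := by
    have : (n : ℝ) < (D : ℝ) ^ r := by
      rw [← hyr]
      exact pow_lt_pow_left₀ h1 hy0 (by omega)
    exact_mod_cast this
  have h3 := exPrime_upper n k r D hk h2
  have h4 : ((exPrime n k : ℕ) : ℝ) ≤ ((D * n + 2 * r * (k - 1) : ℕ) : ℝ) := by exact_mod_cast h3
  push_cast [Nat.cast_sub hk] at h4
  have h5 : (D : ℝ) ≤ y + 1 := by
    rw [hD]; push_cast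
    have := Nat.floor_le hy0
    linarith
  have h6 : (n : ℝ) ^ (1 + 1 / (r : ℝ)) = n * y := by
    rw [Real.rpow_add hn0, Real.rpow_one]
  rw [h6]
  have h7 : (D : ℝ) * n ≤ (y + 1) * n := mul_le_mul_of_nonneg_right h5 hn0.le
  linarith

lemma lower4_real (n k : ℕ) (hk : 1 ≤ k) (h : 16 * k ≤ n ^ 2) : 4 * k - 1 ≤ exPrime n k := by
  apply lower4 (n / 2) ((n + 1) / 2) (by omega) _ (by omega)
  obtain ⟨t, ht | ht⟩ := Nat.even_or_odd' n
  · have e1 : n / 2 = t := by omega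
    have e2 : (n + 1) / 2 = t := by omega
    rw [e1, e2]
    subst ht
    have : 16 * k ≤ 4 * (t * t) := by
      calc 16 * k ≤ (2 * t) ^ 2 := h
        _ = _ := by ring
    omega
  · have e1 : n / 2 = t := by omega
    have e2 : (n + 1) / 2 = t + 1 := by omega
    rw [e1, e2]
    subst ht
    have h1 : 16 * k ≤ 4 * (t * (t + 1)) + 1 := by
      calc 16 * k ≤ (2 * t + 1) ^ 2 := h
        _ = _ := by ring
    omega

/-- Bertrand. -/
lemma exists_prime_half {x : ℝ} (hx : 2 ≤ x) : ∃ p : ℕ, p.Prime ∧ x / 2 < p ∧ (p : ℝ) ≤ x := by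
  set m := ⌊x / 2⌋₊ with hm
  have h1 : 1 ≤ m := by rw [hm, Nat.one_le_floor_iff]; linarith
  obtain ⟨p, hp, h2, h3⟩ := Nat.exists_prime_lt_and_le_two_mul m (by omega)
  refine ⟨p, hp, ?_, ?_⟩
  · have := Nat.lt_floor_add_one (x / 2)
    have h4 : ((m + 1 : ℕ) : ℝ) ≤ p := by exact_mod_cast h2
    push_cast at h4
    linarith
  · have h4 : (m : ℝ) ≤ x / 2 := Nat.floor_le (by linarith)
    have h5 : (p : ℝ) ≤ ((2 * m : ℕ) : ℝ) := by exact_mod_cast h3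
    push_cast at h5
    linarith

lemma lower6_real (n k : ℕ) (hk : 1 ≤ k) (h : 136 * (k : ℝ) ≤ (n : ℝ) ^ (3 / 2 : ℝ)) :
    6 * k - 1 ≤ exPrime n k := by
  have hk1 : (1 : ℝ) ≤ k := by exact_mod_cast hk
  have hn0 : (0 : ℝ) ≤ n := by positivity
  set x := Real.sqrt (n / 2) with hx
  have hx0 : 0 ≤ x := Real.sqrt_nonneg _
  have hx2 : x ^ 2 = n / 2 := Real.sq_sqrt (by positivity)
  -- n^{3/2} = n * sqrt n
  have hs : (n : ℝ) ^ (3 / 2 : ℝ) = (Real.sqrt n) ^ 3 := by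
    rw [Real.sqrt_eq_rpow, ← Real.rpow_natCast, ← Real.rpow_mul hn0]
    norm_num
  have hs2 : Real.sqrt n = Real.sqrt 2 * x := by
    rw [hx, ← Real.sqrt_mul (by norm_num)]
    congr 1; ring
  have h2 : Real.sqrt 2 < 1.4143 := by
    rw [Real.sqrt_lt' (by norm_num)]; norm_num
  have h20 : 0 < Real.sqrt 2 := by positivity
  have h22 : Real.sqrt 2 ^ 2 = 2 := Real.sq_sqrt (by norm_num)
  have h3 : (n : ℝ) ^ (3 / 2 : ℝ) ≤ 2.8286 * x ^ 3 := by
    rw [hs, hs2, mul_pow]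
    have : Real.sqrt 2 ^ 3 ≤ 2.8286 := by
      calc Real.sqrt 2 ^ 3 = Real.sqrt 2 ^ 2 * Real.sqrt 2 := by ring
        _ ≤ 2.8286 := by rw [h22]; linarith
    exact mul_le_mul_of_nonneg_right this (by positivity)
  have h4 : 48 * (k : ℝ) ≤ x ^ 3 := by nlinarith
  have hxge : 2 ≤ x := by
    by_contra hlt
    push Not at hlt
    have : x ^ 3 ≤ 2 ^ 3 := pow_le_pow_left₀ hx0 hlt.le 3
    linarith
  obtain ⟨p, hp, hp1, hp2⟩ := exists_prime_half hxge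
  haveI : Fact p.Prime := ⟨hp⟩
  have hp0 : (0 : ℝ) ≤ p := by positivity
  apply lower6 p _ _ (by omega)
  · have : (2 * (p : ℝ) ^ 2) ≤ n := by
      have : (p : ℝ) ^ 2 ≤ x ^ 2 := pow_le_pow_left₀ hp0 hp2 2
      linarith
    exact_mod_cast this
  · have h5 : (x / 2) ^ 3 ≤ (p : ℝ) ^ 3 := pow_le_pow_left₀ (by positivity) hp1.le 3
    have h6 : (6 * k : ℝ) ≤ (p : ℝ) ^ 3 := by
      have : (x / 2) ^ 3 = x ^ 3 / 8 := by ring
      linarith
    have h7 : 6 * k ≤ p ^ 3 := by exact_mod_cast h6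
    omega

lemma lower8_real (n k : ℕ) (hk : 1 ≤ k) (h : 323 * (k : ℝ) ≤ (n : ℝ) ^ (4 / 3 : ℝ)) :
    8 * k - 1 ≤ exPrime n k := by
  have hk1 : (1 : ℝ) ≤ k := by exact_mod_cast hk
  have hn0 : (0 : ℝ) ≤ n := by positivity
  set x := ((n : ℝ) / 2) ^ (1 / 3 : ℝ) with hx
  have hx0 : 0 ≤ x := by positivity
  have hx3 : x ^ 3 = n / 2 := by
    rw [hx, ← Real.rpow_natCast, ← Real.rpow_mul (by positivity)]
    norm_num
  set c := (2 : ℝ) ^ (1 / 3 : ℝ) with hc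
  have hc0 : 0 < c := by positivity
  have hc3 : c ^ 3 = 2 := by
    rw [hc, ← Real.rpow_natCast, ← Real.rpow_mul (by norm_num)]
    norm_num
  have hc1 : c < 1.26 := by
    by_contra hge
    push Not at hge
    have : (1.26 : ℝ) ^ 3 ≤ c ^ 3 := pow_le_pow_left₀ (by norm_num) hge 3
    rw [hc3] at this
    norm_num at this
  have hs : (n : ℝ) ^ (4 / 3 : ℝ) = (c * x) ^ 4 := by
    have h1 : c * x = (n : ℝ) ^ (1 / 3 : ℝ) := by
      rw [hc, hx, ← Real.mul_rpow (by norm_num) (by positivity)]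
      congr 1; ring
    rw [h1, ← Real.rpow_natCast, ← Real.rpow_mul hn0]
    norm_num
  have h3 : (n : ℝ) ^ (4 / 3 : ℝ) ≤ 2.52 * x ^ 4 := by
    rw [hs, mul_pow]
    have : c ^ 4 ≤ 2.52 := by
      calc c ^ 4 = c ^ 3 * c := by ring
        _ ≤ 2.52 := by rw [hc3]; linarith
    exact mul_le_mul_of_nonneg_right this (by positivity)
  have h4 : 128 * (k : ℝ) ≤ x ^ 4 := by nlinarith
  have hxge : 2 ≤ x := by
    by_contra hlt
    push Not at hlt
    have : x ^ 4 ≤ 2 ^ 4 := pow_le_pow_left₀ hx0 hlt.le 4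
    linarith
  obtain ⟨p, hp, hp1, hp2⟩ := exists_prime_half hxge
  haveI : Fact p.Prime := ⟨hp⟩
  have hp0 : (0 : ℝ) ≤ p := by positivity
  apply lower8 p _ _ (by omega)
  · have : (2 * (p : ℝ) ^ 3) ≤ n := by
      have : (p : ℝ) ^ 3 ≤ x ^ 3 := pow_le_pow_left₀ hp0 hp2 3
      linarith
    exact_mod_cast this
  · have h5 : (x / 2) ^ 4 ≤ (p : ℝ) ^ 4 := pow_le_pow_left₀ (by positivity) hp1.le 4
    have h6 : (8 * k : ℝ) ≤ (p : ℝ) ^ 4 := by
      have : (x / 2) ^ 4 = x ^ 4 / 16 := by ring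
      linarith
    have h7 : 8 * k ≤ p ^ 4 := by exact_mod_cast h6
    omega

/-- asymptotic form of one window -/
lemma window {n k r : ℕ} (hk : 1 ≤ k) (hn : 1 ≤ n) (hr : 1 ≤ r) {ε C : ℝ} (hε : 0 < ε)
    (hC : 2 / ε ≤ C) (h1 : C * (n : ℝ) ^ (1 + 1 / (r : ℝ)) ≤ k)
    (hlow : 2 * r * k - 1 ≤ exPrime n k) :
    |(exPrime n k : ℝ) - 2 * r * k| ≤ ε * k := by
  have hk1 : (1 : ℝ) ≤ k := by exact_mod_cast hk
  have hn1 : (1 : ℝ) ≤ n := by exact_mod_cast hn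
  have hr1 : (1 : ℝ) ≤ r := by exact_mod_cast hr
  have hup := upper_real n k r hk hr
  have hnp : (n : ℝ) ≤ (n : ℝ) ^ (1 + 1 / (r : ℝ)) := by
    calc (n : ℝ) = (n : ℝ) ^ (1 : ℝ) := (Real.rpow_one _).symm
      _ ≤ _ := Real.rpow_le_rpow_of_exponent_le hn1 (by
          have : 0 ≤ 1 / (r : ℝ) := by positivity
          linarith)
  have hC0 : 0 < C := lt_of_lt_of_le (by positivity) hC
  have h2 : 2 ≤ ε * C := by
    rw [div_le_iff₀ hε] at hC; linarith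
  have h3 : 2 * (n : ℝ) ^ (1 + 1 / (r : ℝ)) ≤ ε * k := by
    have h0 : (0 : ℝ) ≤ (n : ℝ) ^ (1 + 1 / (r : ℝ)) := by positivity
    calc 2 * (n : ℝ) ^ (1 + 1 / (r : ℝ)) ≤ (ε * C) * (n : ℝ) ^ (1 + 1 / (r : ℝ)) :=
          mul_le_mul_of_nonneg_right h2 h0
      _ = ε * (C * (n : ℝ) ^ (1 + 1 / (r : ℝ))) := by ring
      _ ≤ ε * k := mul_le_mul_of_nonneg_left h1 hε.le
  have hlow' : 2 * r * (k : ℝ) - 1 ≤ exPrime n k := by
    have h5 : ((2 * r * k - 1 : ℕ) : ℝ) ≤ exPrime n k := by exact_mod_cast hlow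
    have h6 : 1 ≤ 2 * r * k := by
      have : 0 < r * k := Nat.mul_pos hr hk
      nlinarith
    rw [Nat.cast_sub h6] at h5
    push_cast at h5
    exact h5
  have h4 : (1 : ℝ) ≤ (n : ℝ) ^ (1 + 1 / (r : ℝ)) := hn1.trans hnp
  rw [abs_le]
  constructor
  · linarith
  · nlinarith

/-- **Dense windows.** -/
theorem dense_windows (ε : ℝ) (hε : 0 < ε) : ∃ C : ℝ, 0 < C ∧ ∀ n k : ℕ, 1 ≤ n → 1 ≤ k →
    (C * (n : ℝ) ^ (3 / 2 : ℝ) ≤ k → 16 * k ≤ n ^ 2 → |(exPrime n k : ℝ) - 4 * k| ≤ ε * k) ∧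
    (C * (n : ℝ) ^ (4 / 3 : ℝ) ≤ k → C * k ≤ (n : ℝ) ^ (3 / 2 : ℝ) →
      |(exPrime n k : ℝ) - 6 * k| ≤ ε * k) ∧
    (C * (n : ℝ) ^ (5 / 4 : ℝ) ≤ k → C * k ≤ (n : ℝ) ^ (4 / 3 : ℝ) →
      |(exPrime n k : ℝ) - 8 * k| ≤ ε * k) := by
  refine ⟨max (2 / ε) 323, by positivity, fun n k hn hk => ?_⟩
  have hC1 : 2 / ε ≤ max (2 / ε) 323 := le_max_left _ _
  have hC2 : (323 : ℝ) ≤ max (2 / ε) 323 := le_max_right _ _
  have hk0 : (0 : ℝ) ≤ k := by positivity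
  refine ⟨fun h1 h2 => ?_, fun h1 h2 => ?_, fun h1 h2 => ?_⟩
  · have := window (r := 2) hk hn (by norm_num) hε hC1 (by norm_num at h1 ⊢; exact h1)
      (by
        have := lower4_real n k hk h2
        calc 2 * 2 * k - 1 = 4 * k - 1 := by ring_nf
          _ ≤ _ := this)
    norm_num at this
    exact this
  · have := window (r := 3) hk hn (by norm_num) hε hC1 (by norm_num at h1 ⊢; exact h1)
      (by
        have := lower6_real n k hk (by
          have := mul_le_mul_of_nonneg_right hC2 hk0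
          linarith)
        calc 2 * 3 * k - 1 = 6 * k - 1 := by ring_nf
          _ ≤ _ := this)
    norm_num at this
    exact this
  · have := window (r := 4) hk hn (by norm_num) hε hC1 (by norm_num at h1 ⊢; exact h1)
      (by
        have := lower8_real n k hk (by
          have := mul_le_mul_of_nonneg_right hC2 hk0
          linarith)
        calc 2 * 4 * k - 1 = 8 * k - 1 := by ring_nf
          _ ≤ _ := this)
    norm_num at this
    exact this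

end Pool.Agent.DC31
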