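import Pool.Agent.DC31.Invol

/-!
# The pairing of the elements of a set in a linear order (first with second, third with fourth, ...)
and the bound for the number of bad involutions
-/

namespace Pool.Agent.DC31

open Finset Equiv

section order

variable {α : Type*} [Fintype α] [LinearOrder α]

/-- `x < y` are consecutive in `X` and the number of elements of `X` below `x` is even. -/
def Arc (X : Finset α) (x y : α) : Prop :=
  x ∈ X ∧ y ∈ X ∧ x < y ∧ Even (X.filter (· < x)).card ∧ ∀ z ∈ X, ¬ (x < z ∧ z < y)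

lemma exists_sigma : ∀ (s : ℕ) (X : Finset α), X.card = 2 * s →
    ∃ σ ∈ invol X, ∀ x ∈ X, Arc X x (σ x) ∨ Arc X (σ x) x := by
  intro s
  induction s with
  | zero =>
    intro X hX
    have : X = ∅ := card_eq_zero.1 (by simpa using hX)
    subst this
    exact ⟨1, by simp [invol_empty], by simp⟩
  | succ s ih =>
    intro X hX
    have hne : X.Nonempty := card_pos.1 (by omega)
    set b := X.max' hne with hb
    have hbX : b ∈ X := max'_mem _ _
    have hc1 : (X.erase b).card = 2 * s + 1 := by rw [card_erase_of_mem hbX, hX]; omega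
    have hne1 : (X.erase b).Nonempty := card_pos.1 (by omega)
    set a := (X.erase b).max' hne1 with ha
    have haX1 : a ∈ X.erase b := max'_mem _ _
    have haX : a ∈ X := mem_of_mem_erase haX1
    have hab : a ≠ b := ne_of_mem_erase haX1
    have hlt : a < b := lt_of_le_of_ne (le_max' _ _ haX) hab
    have hle : ∀ z ∈ X, z ≠ b → z ≤ a := fun z hz hzb => le_max' _ _ (mem_erase.2 ⟨hzb, hz⟩)
    set X2 := (X.erase a).erase b with hX2
    have hmem2 : ∀ z, z ∈ X2 ↔ z ∈ X ∧ z ≠ a ∧ z ≠ b := fun z => ee_iff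
    have hlt2 : ∀ z ∈ X2, z < a := fun z hz =>
      lt_of_le_of_ne (hle z ((hmem2 z).1 hz).1 ((hmem2 z).1 hz).2.2) ((hmem2 z).1 hz).2.1
    have hcard2 : X2.card = 2 * s := card_ee haX (mem_erase.2 ⟨hab.symm, hbX⟩) hX
    obtain ⟨σ', hσ', hA'⟩ := ih X2 hcard2
    obtain ⟨hσ, hσa⟩ := mul_swap_mem' haX hbX hσ' hab
    have hσb : (σ' * swap a b) b = a := by
      have := invol_invol hσ a
      rwa [hσa] at this
    have hArc : Arc X a b := by
      refine ⟨haX, hbX, hlt, ?_, ?_⟩
      · have : X.filter (· < a) = X2 := by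
          ext z
          rw [mem_filter, hmem2]
          constructor
          · rintro ⟨h1, h2⟩
            exact ⟨h1, h2.ne, (h2.trans hlt).ne⟩
          · rintro ⟨h1, h2, h3⟩
            exact ⟨h1, lt_of_le_of_ne (hle z h1 h3) h2⟩
        rw [this, hcard2]
        exact even_two_mul s
      · rintro z hz ⟨h1, h2⟩
        exact absurd (hle z hz h2.ne) (not_le.2 h1)
    have hlift : ∀ x y, Arc X2 x y → Arc X x y := by
      rintro x y ⟨h1, h2, h3, h4, h5⟩
      refine ⟨((hmem2 x).1 h1).1, ((hmem2 y).1 h2).1, h3, ?_, ?_⟩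
      · have : X.filter (· < x) = X2.filter (· < x) := by
          ext z
          rw [mem_filter, mem_filter, hmem2]
          constructor
          · rintro ⟨e1, e2⟩
            have : z < a := e2.trans (hlt2 x h1)
            exact ⟨⟨e1, this.ne, (this.trans hlt).ne⟩, e2⟩
          · rintro ⟨⟨e1, _, _⟩, e2⟩
            exact ⟨e1, e2⟩
        rw [this]; exact h4
      · rintro z hz ⟨e1, e2⟩
        have : z < a := e2.trans (hlt2 y h2)
        exact h5 z ((hmem2 z).2 ⟨hz, this.ne, (this.trans hlt).ne⟩) ⟨e1, e2⟩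
    refine ⟨σ' * swap a b, hσ, fun x hx => ?_⟩
    by_cases h1 : x = a
    · subst h1; rw [hσa]; exact Or.inl hArc
    by_cases h2 : x = b
    · rw [h2, hσb]; exact Or.inr hArc
    rw [mul_swap_apply_of_ne h1 h2]
    rcases hA' x ((hmem2 x).2 ⟨hx, h1, h2⟩) with h | h
    · exact Or.inl (hlift _ _ h)
    · exact Or.inr (hlift _ _ h)

open Classical in
/-- the chosen pairing -/
noncomputable def sig (X : Finset α) : Perm α :=
  if h : ∃ σ ∈ invol X, ∀ x ∈ X, Arc X x (σ x) ∨ Arc X (σ x) x then h.choose else 1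

lemma sig_spec {X : Finset α} (h : Even X.card) :
    sig X ∈ invol X ∧ ∀ x ∈ X, Arc X x (sig X x) ∨ Arc X (sig X x) x := by
  obtain ⟨s, hs⟩ := h
  have h' := exists_sigma s X (by omega)
  rw [sig, dif_pos h']
  exact h'.choose_spec

end order

section restr

variable {α : Type*} [Fintype α] [DecidableEq α]

/-- the function which is `P` on `X` and the identity elsewhere -/
def rf (X : Finset α) (P : Perm α) (x : α) : α := if x ∈ X then P x else x

open Classical in
/-- its permutation -/
noncomputable def restr (X : Finset α) (P : Perm α) : Perm α :=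
  if h : Function.Involutive (rf X P) then h.toPerm (rf X P) else 1

lemma restr_apply {X : Finset α} {P : Perm α} (hP : P ∈ invol univ) (hX : ∀ x ∈ X, P x ∈ X)
    (x : α) : restr X P x = if x ∈ X then P x else x := by
  have h : Function.Involutive (rf X P) := by
    intro x
    unfold rf
    by_cases hx : x ∈ X
    · simp only [hx, if_true, hX x hx, invol_invol hP]
    · simp only [hx, if_false]
  rw [restr, dif_pos h]
  rfl

lemma restr_mem {X : Finset α} {P : Perm α} (hP : P ∈ invol univ) (hX : ∀ x ∈ X, P x ∈ X) :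
    restr X P ∈ invol X := by
  rw [mem_invol]
  refine ⟨fun x => ?_, fun x => ?_⟩
  · rw [restr_apply hP hX, restr_apply hP hX]
    by_cases hx : x ∈ X
    · simp only [hx, if_true, hX x hx, invol_invol hP]
    · simp only [hx, if_false]
  · rw [restr_apply hP hX]
    by_cases hx : x ∈ X
    · simp only [hx, if_true, iff_true]
      exact invol_ne hP (mem_univ x)
    · simp [hx]

lemma compl_inv {X : Finset α} {P : Perm α} (hP : P ∈ invol univ) (hX : ∀ x ∈ X, P x ∈ X) :
    ∀ x ∈ Xᶜ, P x ∈ Xᶜ := by
  intro x hx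
  rw [mem_compl] at hx ⊢
  intro h
  exact hx (by rw [← invol_invol hP x]; exact hX _ h)

lemma even_card_of_inv {X : Finset α} {P : Perm α} (hP : P ∈ invol univ)
    (hX : ∀ x ∈ X, P x ∈ X) : Even X.card := by
  have h : ∑ x ∈ X, (1 : ZMod 2) = 0 := by
    apply sum_involution (fun x _ => P x)
    · intro x _; decide
    · intro x _ _; exact invol_ne hP (mem_univ x)
    · intro x hx; exact hX x hx
    · intro x hx; exact invol_invol hP x
  rw [sum_const, nsmul_eq_mul, mul_one] at h
  exact (ZMod.natCast_eq_zero_iff_even).1 h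

open Classical in
/-- For a fixed invariant set. -/
lemma count_X (z : ℕ) (hz : 1 ≤ z) (k M s : ℕ) (hα : Fintype.card α = 2 * M) (hs : s ≤ M)
    (X : Finset α) (hX : X.card = 2 * s) (σ : Perm α) (hσ : σ ∈ invol X) :
    z ^ k * ((invol (univ : Finset α)).filter
      (fun P => (∀ x ∈ X, P x ∈ X) ∧ Q k P σ X)).card ≤ A z s * D (M - s) := by
  have h1 : ((invol (univ : Finset α)).filter (fun P => (∀ x ∈ X, P x ∈ X) ∧ Q k P σ X)).card ≤
      (((invol X).filter (fun P => Q k P σ X)) ×ˢ invol Xᶜ).card := by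
    apply card_le_card_of_injOn (fun P => (restr X P, restr Xᶜ P))
    · intro P hP
      simp only [coe_filter, Set.mem_ofPred_eq, mem_coe, mem_product, mem_filter] at hP ⊢
      obtain ⟨hP, hX', f, hf, hd⟩ := hP
      refine ⟨⟨restr_mem hP hX', f, fun j => ⟨(hf j).1, (hf j).2.1, fun x hx => ?_,
        (hf j).2.2.2⟩, hd⟩, restr_mem hP (compl_inv hP hX')⟩
      rw [restr_apply hP hX', if_pos ((hf j).2.1 hx)]
      exact (hf j).2.2.1 x hx
    · intro P hP P' hP' h
      simp only [coe_filter, Set.mem_ofPred_eq] at hP hP'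
      obtain ⟨hP, hX1, _⟩ := hP
      obtain ⟨hP', hX1', _⟩ := hP'
      simp only [Prod.mk.injEq] at h
      ext x
      by_cases hx : x ∈ X
      · have e1 := restr_apply hP hX1 x
        have e2 := restr_apply hP' hX1' x
        rw [if_pos hx] at e1 e2
        rw [← e1, ← e2, h.1]
      · have hx' : x ∈ Xᶜ := mem_compl.2 hx
        have e1 := restr_apply hP (compl_inv hP hX1) x
        have e2 := restr_apply hP' (compl_inv hP' hX1') x
        rw [if_pos hx'] at e1 e2
        rw [← e1, ← e2, h.2]
  have h2 : (invol Xᶜ).card = D (M - s) := by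
    apply card_invol
    rw [card_compl, hα, hX]; omega
  rw [card_product, h2] at h1
  calc _ ≤ z ^ k * (((invol X).filter (fun P => Q k P σ X)).card * D (M - s)) :=
        Nat.mul_le_mul_left _ h1
    _ = (z ^ k * ((invol X).filter (fun P => Q k P σ X)).card) * D (M - s) := by ring
    _ ≤ _ := Nat.mul_le_mul_right _ (key_count z hz s k X σ hX hσ)

end restr

section arith

lemma D_pos (s : ℕ) : 0 < D s := prod_pos (fun i _ => by omega)

lemma two_mul_factorial_eq (n : ℕ) : (2 * n).factorial = 2 ^ n * n.factorial * D n := by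
  induction n with
  | zero => simp [D]
  | succ n ih =>
    have : 2 * (n + 1) = 2 * n + 1 + 1 := by ring
    rw [this, Nat.factorial_succ, Nat.factorial_succ, ih, Nat.factorial_succ]
    simp only [D, prod_range_succ]
    ring

lemma choose_D {M s : ℕ} (hs : s ≤ M) :
    (2 * M).choose (2 * s) * (D s * D (M - s)) = M.choose s * D M := by
  have h1 := Nat.choose_mul_factorial_mul_factorial (n := 2 * M) (k := 2 * s) (by omega)
  have h2 := Nat.choose_mul_factorial_mul_factorial hs
  have h3 : 2 * M - 2 * s = 2 * (M - s) := by omega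
  rw [h3, two_mul_factorial_eq, two_mul_factorial_eq, two_mul_factorial_eq, ← h2] at h1
  have h4 : 2 ^ M = 2 ^ s * 2 ^ (M - s) := by rw [← pow_add]; congr 1; omega
  rw [h4] at h1
  have hpos : 0 < 2 ^ s * 2 ^ (M - s) * (s.factorial * (M - s).factorial) := by positivity
  apply Nat.eq_of_mul_eq_mul_left hpos
  linarith

lemma A_mul_D {z : ℕ} (hz : 1 ≤ z) {s M : ℕ} (hs : s ≤ M) : A z s * D M ≤ A z M * D s := by
  induction M, hs using Nat.le_induction with
  | base => exact le_rfl
  | succ M _ ih =>
    have e1 : D (M + 1) = D M * (2 * M + 1) := by simp only [D, prod_range_succ]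
    have e2 : A z (M + 1) = A z M * (z + 2 * M) := by simp only [A, prod_range_succ]
    rw [e1, e2]
    calc A z s * (D M * (2 * M + 1)) = (A z s * D M) * (2 * M + 1) := by ring
      _ ≤ (A z M * D s) * (z + 2 * M) := Nat.mul_le_mul ih (by omega)
      _ = _ := by ring

lemma term_le {z : ℕ} (hz : 1 ≤ z) {s M : ℕ} (hs : s ≤ M) :
    (2 * M).choose (2 * s) * (A z s * D (M - s)) ≤ M.choose s * A z M := by
  have h1 := choose_D hs
  have h2 := A_mul_D hz hs
  have hD := D_pos M
  apply Nat.le_of_mul_le_mul_right _ hD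
  calc (2 * M).choose (2 * s) * (A z s * D (M - s)) * D M
      = (2 * M).choose (2 * s) * D (M - s) * (A z s * D M) := by ring
    _ ≤ (2 * M).choose (2 * s) * D (M - s) * (A z M * D s) := Nat.mul_le_mul_left _ h2
    _ = ((2 * M).choose (2 * s) * (D s * D (M - s))) * A z M := by ring
    _ = M.choose s * A z M * D M := by rw [h1]; ring

lemma A_odd (j M : ℕ) : A (2 * j + 1) M * D j = D M * ∏ i ∈ range j, (2 * (M + i) + 1) := by
  have h1 : D (j + M) = D j * ∏ i ∈ range M, (2 * (j + i) + 1) := by
    simp only [D, prod_range_add]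
  have h2 : D (M + j) = D M * ∏ i ∈ range j, (2 * (M + i) + 1) := by
    simp only [D, prod_range_add]
  have h3 : A (2 * j + 1) M = ∏ i ∈ range M, (2 * (j + i) + 1) := by
    unfold A
    apply prod_congr rfl
    intro i _; ring
  rw [← h2, h3, mul_comm, ← h1, add_comm]

lemma A_le (j M : ℕ) : A (2 * j + 1) M * D j ≤ D M * (2 * (M + j)) ^ j := by
  rw [A_odd]
  apply Nat.mul_le_mul_left
  calc ∏ i ∈ range j, (2 * (M + i) + 1) ≤ ∏ i ∈ range j, (2 * (M + j)) := by
        apply prod_le_prod' (fun i hi => ?_)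
        have := mem_range.1 hi
        omega
    _ = _ := by simp

end arith

section bad

/-- `P` is bad if some invariant set `X` splits into `k` pieces. -/
def Bad {m : ℕ} (k : ℕ) (P : Perm (Fin m)) : Prop :=
  ∃ X : Finset (Fin m), (∀ x ∈ X, P x ∈ X) ∧ Q k P (sig X) X

open Classical in
lemma count_bad (z : ℕ) (hz : 1 ≤ z) (k M : ℕ) :
    z ^ k * ((invol (univ : Finset (Fin (2 * M)))).filter (fun P => Bad k P)).card ≤
      2 ^ M * A z M := by
  set T : Finset (Fin (2 * M)) → Finset (Perm (Fin (2 * M))) := fun X =>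
    (invol (univ : Finset (Fin (2 * M)))).filter
      (fun P => (∀ x ∈ X, P x ∈ X) ∧ Q k P (sig X) X) with hT
  have hsub : (invol (univ : Finset (Fin (2 * M)))).filter (fun P => Bad k P) ⊆
      (range (M + 1)).biUnion (fun s => (powersetCard (2 * s) univ).biUnion T) := by
    intro P hP
    rw [mem_filter] at hP
    obtain ⟨hP, X, hX, hQ⟩ := hP
    obtain ⟨s, hs⟩ := even_card_of_inv hP hX
    rw [mem_biUnion]
    have hle : X.card ≤ 2 * M := by simpa using card_le_univ X
    refine ⟨s, mem_range.2 (by omega), ?_⟩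
    rw [mem_biUnion]
    refine ⟨X, mem_powersetCard.2 ⟨subset_univ _, by omega⟩, ?_⟩
    rw [hT]
    exact mem_filter.2 ⟨hP, hX, hQ⟩
  have h1 : ∀ s ∈ range (M + 1), ∀ X ∈ powersetCard (2 * s) (univ : Finset (Fin (2 * M))),
      z ^ k * (T X).card ≤ A z s * D (M - s) := by
    intro s hs X hX
    have hs' : s ≤ M := by have := mem_range.1 hs; omega
    have hXc := (mem_powersetCard.1 hX).2
    have := count_X z hz k M s (by simp) hs' X hXc (sig X)
      (sig_spec (by rw [hXc]; exact even_two_mul s)).1
    convert this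
  calc z ^ k * ((invol (univ : Finset (Fin (2 * M)))).filter (fun P => Bad k P)).card
      ≤ z ^ k * ∑ s ∈ range (M + 1), ∑ X ∈ powersetCard (2 * s) univ, (T X).card := by
        apply Nat.mul_le_mul_left
        refine (card_le_card hsub).trans ?_
        refine card_biUnion_le.trans ?_
        exact sum_le_sum (fun s _ => card_biUnion_le)
    _ = ∑ s ∈ range (M + 1), ∑ X ∈ powersetCard (2 * s) univ, z ^ k * (T X).card := by
        rw [mul_sum]
        apply sum_congr rfl
        intro s _
        rw [mul_sum]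
    _ ≤ ∑ s ∈ range (M + 1), ∑ X ∈ powersetCard (2 * s) (univ : Finset (Fin (2 * M))),
          A z s * D (M - s) := sum_le_sum (fun s hs => sum_le_sum (fun X hX => h1 s hs X hX))
    _ = ∑ s ∈ range (M + 1), (2 * M).choose (2 * s) * (A z s * D (M - s)) := by
        apply sum_congr rfl
        intro s _
        rw [sum_const, card_powersetCard, smul_eq_mul]
        simp
    _ ≤ ∑ s ∈ range (M + 1), M.choose s * A z M :=
        sum_le_sum (fun s hs => term_le hz (by have := mem_range.1 hs; omega))
    _ = 2 ^ M * A z M := by rw [← sum_mul, Nat.sum_range_choose]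

/-- A good involution exists. -/
lemma exists_good (k M j : ℕ) (h : 2 ^ M * (2 * (M + j)) ^ j < (2 * j + 1) ^ k * D j) :
    ∃ P ∈ invol (univ : Finset (Fin (2 * M))), ¬ Bad k P := by
  classical
  by_contra hcon
  push Not at hcon
  have h1 := count_bad (2 * j + 1) (by omega) k M
  rw [filter_true_of_mem hcon, card_invol M univ (by simp)] at h1
  have h2 := A_le j M
  have h3 : (2 * j + 1) ^ k * D M * D j ≤ 2 ^ M * (D M * (2 * (M + j)) ^ j) := by
    calc (2 * j + 1) ^ k * D M * D j ≤ (2 ^ M * A (2 * j + 1) M) * D j :=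
          Nat.mul_le_mul_right _ h1
      _ = 2 ^ M * (A (2 * j + 1) M * D j) := by ring
      _ ≤ _ := Nat.mul_le_mul_left _ h2
  have h4 : D M * ((2 * j + 1) ^ k * D j) ≤ D M * (2 ^ M * (2 * (M + j)) ^ j) := by
    calc D M * ((2 * j + 1) ^ k * D j) = (2 * j + 1) ^ k * D M * D j := by ring
      _ ≤ _ := h3
      _ = _ := by ring
  exact absurd (Nat.le_of_mul_le_mul_left h4 (D_pos M)) (not_le.2 h)

end bad

end Pool.Agent.DC31
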