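import Pool.Agent.DC31.Defs
import Pool.Agent.DC31.Sigma

/-!
# Even subgraphs
-/

namespace Pool.Agent.DC31

set_option linter.unusedSimpArgs false

open Finset

/-- `G` contains `k` pairwise edge-disjoint non-empty even subgraphs. -/
def HasEven {V : Type*} (G : SimpleGraph V) (k : ℕ) : Prop :=
  ∃ H : Fin k → SimpleGraph V, (∀ j, H j ≤ G ∧ H j ≠ ⊥ ∧ ∀ v, Even ((H j).neighborSet v).ncard) ∧
    ∀ i j, i ≠ j → ∀ v w, (H i).Adj v w → ¬ (H j).Adj v w

lemma HasCycles.hasEven {V : Type*} [Finite V] {G : SimpleGraph V} {k : ℕ}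
    (h : HasCycles G k) : HasEven G k := by
  classical
  obtain ⟨u, c, hc, hd⟩ := h
  have hadj : ∀ j v w, (SimpleGraph.fromEdgeSet {e | e ∈ (c j).edges}).Adj v w ↔
      s(v, w) ∈ (c j).edges := by
    intro j v w
    rw [SimpleGraph.fromEdgeSet_adj]
    simp only [Set.mem_ofPred_eq, and_iff_left_iff_imp]
    intro h
    exact (SimpleGraph.Walk.adj_of_mem_edges _ h).ne
  refine ⟨fun j => SimpleGraph.fromEdgeSet {e | e ∈ (c j).edges}, fun j => ⟨?_, ?_, ?_⟩, ?_⟩
  · intro v w h
    rw [hadj] at h
    exact SimpleGraph.Walk.adj_of_mem_edges _ h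
  · intro h
    have h3 := (hc j).three_le_length
    rw [← SimpleGraph.Walk.length_edges] at h3
    obtain ⟨e, he⟩ : ∃ e, e ∈ (c j).edges := List.exists_mem_of_length_pos (by omega)
    induction e with
    | _ a b =>
      have := (hadj j a b).2 he
      have h' : SimpleGraph.fromEdgeSet {e | e ∈ (c j).edges} = ⊥ := h
      rw [h'] at this
      exact this
  · intro v
    have h1 := (hc j).isTrail.even_countP_edges_iff v
    simp only [ne_eq, not_true_eq_false, false_imp_iff, iff_true] at h1
    have hnd := (hc j).isTrail.edges_nodup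
    have h2 : ((SimpleGraph.fromEdgeSet {e | e ∈ (c j).edges}).neighborSet v).ncard =
        ((c j).edges.toFinset.filter (fun e => v ∈ e)).card := by
      rw [← Set.ncard_coe_finset, ← Set.ncard_image_of_injective _
        (f := fun w => s(v, w)) (fun a b hab => Sym2.congr_right.1 hab)]
      congr 1
      ext e
      simp only [Set.mem_image, SimpleGraph.mem_neighborSet, hadj, coe_filter, Set.mem_ofPred_eq,
        List.mem_toFinset]
      constructor
      · rintro ⟨w, hw, rfl⟩
        exact ⟨hw, by simp⟩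
      · rintro ⟨he, hv⟩
        obtain ⟨w, rfl⟩ := Sym2.mem_iff_exists.1 hv
        exact ⟨w, he, rfl⟩
    have h3 : (c j).edges.toFinset.filter (fun e => v ∈ e) =
        ((c j).edges.filter (fun e => decide (v ∈ e))).toFinset := by
      ext e; simp
    rw [h2, h3, List.toFinset_card_of_nodup (hnd.filter _), ← List.countP_eq_length_filter]
    exact h1
  · intro i j hij v w h1 h2
    rw [hadj] at h1 h2
    exact hd i j hij _ h1 h2

lemma par1 {V : Type*} {N : Set V} {a : V} (h : N ⊆ {a}) (he : Even N.ncard) : N = ∅ := by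
  rcases Set.subset_singleton_iff_eq.1 h with h | h
  · exact h
  · rw [h, Set.ncard_singleton] at he
    exact absurd he (by decide)

lemma par3 {V : Type*} {N : Set V} {a b c : V} (hab : a ≠ b) (hac : a ≠ c) (hbc : b ≠ c)
    (h : N ⊆ {a, b, c}) (he : Even N.ncard) : a ∈ N ↔ ¬ (b ∈ N ↔ c ∈ N) := by
  classical
  have hN : N = ({a, b, c} : Finset V).filter (· ∈ N) := by
    ext x
    constructor
    · intro hx
      have := h hx
      simp only [Set.mem_insert_iff, Set.mem_singleton_iff] at this
      simp [this, hx]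
    · intro hx
      simp only [coe_filter, Set.mem_ofPred_eq] at hx
      exact hx.2
  have hc : N.ncard = (({a, b, c} : Finset V).filter (· ∈ N)).card := by
    rw [← Set.ncard_coe_finset, ← hN]
  rw [hc, filter_insert, filter_insert, filter_singleton] at he
  clear hN hc h
  by_cases h1 : a ∈ N <;> by_cases h2 : b ∈ N <;> by_cases h3 : c ∈ N <;>
    simp only [h1, h2, h3, if_true, if_false, iff_true, iff_false, not_true_eq_false,
      not_false_eq_true, true_iff, false_iff] at he ⊢
  · rw [card_insert_of_notMem (by simp [hab, hac]), card_insert_of_notMem (by simp [hbc]),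
      card_singleton] at he
    exact absurd he (by decide)
  · simp at he
  · simp at he
  · simp at he

lemma par2 {V : Type*} {N : Set V} {a b : V} (_hab : a ≠ b)
    (h : N ⊆ {a, b}) (he : Even N.ncard) : a ∈ N ↔ b ∈ N := by
  classical
  have hN : N = ({a, b} : Finset V).filter (· ∈ N) := by
    ext x
    constructor
    · intro hx
      have := h hx
      simp only [Set.mem_insert_iff, Set.mem_singleton_iff] at this
      simp [this, hx]
    · intro hx
      simp only [coe_filter, Set.mem_ofPred_eq] at hx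
      exact hx.2
  have hc : N.ncard = (({a, b} : Finset V).filter (· ∈ N)).card := by
    rw [← Set.ncard_coe_finset, ← hN]
  rw [hc, filter_insert, filter_singleton] at he
  clear hN hc h
  by_cases h1 : a ∈ N <;> by_cases h2 : b ∈ N <;>
    simp only [h1, h2, if_true, if_false, iff_true, iff_false, not_true_eq_false,
      not_false_eq_true, true_iff, false_iff] at he ⊢
  · simp at he
  · simp at he

/-- Arc lemma. -/
lemma arc_lemma {m k : ℕ} (ρ : Fin k → ℕ → Prop) (x : Fin k → Fin m → Prop)
    (c1 : ∀ j, ¬ ρ j 0) (c2 : ∀ j (i : Fin m), x j i ↔ ¬ (ρ j i ↔ ρ j (i + 1)))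
    (c3 : ∀ i j t, ρ i t → ρ j t → i = j) (c4 : ∀ i j t, x i t → x j t → i = j)
    (X : Finset (Fin m)) (hX : ∀ i, i ∈ X ↔ ∃ j, x j i) (a b : Fin m)
    (hA : Arc X a b) (j : Fin k) : x j a ↔ x j b := by
  obtain ⟨ha, hb, hab, hev, hno⟩ := hA
  -- flips
  have hflip : ∀ i : Fin m, i ∈ X → ((∃ j, ρ j (i + 1)) ↔ ¬ ∃ j, ρ j i) := by
    intro i hi
    obtain ⟨j0, hj0⟩ := (hX i).1 hi
    have h0 := (c2 j0 i).1 hj0
    have hother : ∀ l, l ≠ j0 → ¬ ρ l i ∧ ¬ ρ l (i + 1) := by
      intro l hl
      have hnx : ¬ x l i := fun h => hl (c4 _ _ _ h hj0)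
      have heq : ρ l i ↔ ρ l (i + 1) := by
        by_contra h
        exact hnx ((c2 l i).2 h)
      have hn : ¬ ρ l i := by
        intro h1
        have h2 := heq.1 h1
        by_cases h3 : ρ j0 i
        · exact hl (c3 _ _ _ h1 h3)
        · have : ρ j0 (i + 1) := by
            by_contra h4
            exact h0 ⟨fun h => absurd h h3, fun h => absurd h h4⟩
          exact hl (c3 _ _ _ h2 this)
      exact ⟨hn, fun h => hn (heq.2 h)⟩
    have e1 : (∃ j, ρ j i) ↔ ρ j0 i := by
      constructor
      · rintro ⟨l, hl⟩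
        by_cases h : l = j0
        · exact h ▸ hl
        · exact absurd hl (hother l h).1
      · intro h; exact ⟨j0, h⟩
    have e2 : (∃ j, ρ j (i + 1)) ↔ ρ j0 (i + 1) := by
      constructor
      · rintro ⟨l, hl⟩
        by_cases h : l = j0
        · exact h ▸ hl
        · exact absurd hl (hother l h).2
      · intro h; exact ⟨j0, h⟩
    rw [e1, e2]
    tauto
  have hconst : ∀ i : Fin m, i ∉ X → ∀ j, (ρ j (i + 1) ↔ ρ j i) := by
    intro i hi j
    by_contra h
    apply hi
    rw [hX]
    refine ⟨j, (c2 j i).2 ?_⟩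
    intro h'
    exact h h'.symm
  have hpar : ∀ t, t ≤ m → ((∃ j, ρ j t) ↔ ¬ Even (X.filter (fun z => z.val < t)).card) := by
    intro t
    induction t with
    | zero =>
      intro _
      simp [c1]
    | succ t ih =>
      intro ht
      have ih := ih (by omega)
      by_cases hX' : (⟨t, by omega⟩ : Fin m) ∈ X
      · have h1 := hflip _ hX'
        simp only at h1
        have h2 : X.filter (fun z => z.val < t + 1) =
            insert (⟨t, by omega⟩ : Fin m) (X.filter (fun z => z.val < t)) := by
          ext z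
          simp only [mem_filter, mem_insert, Fin.ext_iff]
          constructor
          · rintro ⟨e1, e2⟩
            by_cases h : z.val = t
            · exact Or.inl h
            · exact Or.inr ⟨e1, by omega⟩
          · rintro (e | ⟨e1, e2⟩)
            · have : z = ⟨t, by omega⟩ := Fin.ext e
              exact ⟨this ▸ hX', by omega⟩
            · exact ⟨e1, by omega⟩
        rw [h1, ih, h2, card_insert_of_notMem (by simp), Nat.even_add_one]
      · have h1 := hconst _ hX'
        simp only at h1
        have h2 : X.filter (fun z => z.val < t + 1) = X.filter (fun z => z.val < t) := by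
          ext z
          simp only [mem_filter]
          constructor
          · rintro ⟨e1, e2⟩
            refine ⟨e1, ?_⟩
            by_contra h
            have : z = ⟨t, by omega⟩ := Fin.ext (by simp; omega)
            exact hX' (this ▸ e1)
          · rintro ⟨e1, e2⟩
            exact ⟨e1, by omega⟩
        rw [h2, ← ih]
        constructor
        · rintro ⟨j, hj⟩; exact ⟨j, (h1 j).1 hj⟩
        · rintro ⟨j, hj⟩; exact ⟨j, (h1 j).2 hj⟩
  have hna : ¬ ∃ j, ρ j a := by
    rw [hpar a a.2.le]
    push Not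
    exact hev
  have hmid : ∀ j t, a.val + 1 ≤ t → t ≤ b.val → (ρ j t ↔ ρ j (a + 1)) := by
    intro j t ht
    induction t, ht using Nat.le_induction with
    | base => intro _; exact Iff.rfl
    | succ t h1 ih =>
      intro h2
      rw [← ih (by omega)]
      apply hconst ⟨t, by omega⟩
      intro h3
      exact hno _ h3 ⟨by rw [Fin.lt_def]; simp; omega, by rw [Fin.lt_def]; simp; omega⟩
  have hab' : a.val + 1 ≤ b.val := hab
  have h1 : ∃ j, ρ j (a + 1) := (hflip a ha).2 hna
  have h2 : ∃ j, ρ j b := by
    obtain ⟨j, hj⟩ := h1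
    exact ⟨j, (hmid j b hab' le_rfl).2 hj⟩
  have h3 : ¬ ∃ j, ρ j (b + 1) := by
    intro h; exact ((hflip b hb).1 h) h2
  have e1 : ¬ ρ j a := fun h => hna ⟨j, h⟩
  have e2 : ¬ ρ j (b + 1) := fun h => h3 ⟨j, h⟩
  have e3 := hmid j b hab' le_rfl
  rw [c2, c2]
  tauto

end Pool.Agent.DC31
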