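import Pool.Agent.DC31.Even

/-!
# The graph: a path with a spoke at every vertex, the ends of the spokes being matched by `P`,
and some pendant vertices
-/

namespace Pool.Agent.DC31

open Finset Equiv

/-- vertices -/
abbrev W (m r : ℕ) := (Fin m × Bool) ⊕ Fin r

/-- path vertices -/
abbrev pv {m r : ℕ} (i : Fin m) : W m r := Sum.inl (i, false)
/-- spoke ends -/
abbrev sv {m r : ℕ} (i : Fin m) : W m r := Sum.inl (i, true)

/-- the generating relation -/
def Rel {m r : ℕ} (P : Perm (Fin m)) : W m r → W m r → Prop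
  | Sum.inl (i, false), Sum.inl (j, false) => i.val + 1 = j.val
  | Sum.inl (i, false), Sum.inl (j, true) => i = j
  | Sum.inl (i, true), Sum.inl (j, true) => P i = j
  | Sum.inl (i, false), Sum.inr _ => i.val = 0
  | _, _ => False

/-- the graph -/
def GP {m : ℕ} (r : ℕ) (P : Perm (Fin m)) : SimpleGraph (W m r) := SimpleGraph.fromRel (Rel P)

section adj

variable {m r : ℕ} {P : Perm (Fin m)}

lemma adj_pp {i j : Fin m} : (GP r P).Adj (pv i) (pv j) ↔ i.val + 1 = j.val ∨ j.val + 1 = i.val := by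
  simp only [GP, SimpleGraph.fromRel_adj, Rel, ne_eq, Sum.inl.injEq, Prod.mk.injEq, and_true,
    Fin.ext_iff]
  omega

lemma adj_ps {i j : Fin m} : (GP r P).Adj (pv i) (sv j) ↔ i = j := by
  simp [GP, Rel]

lemma adj_ss (hP : P ∈ invol univ) {i j : Fin m} : (GP r P).Adj (sv i) (sv j) ↔ j = P i := by
  simp only [GP, SimpleGraph.fromRel_adj, Rel, ne_eq, Sum.inl.injEq, Prod.mk.injEq, and_true]
  constructor
  · rintro ⟨_, h | h⟩
    · exact h.symm
    · rw [← h, invol_invol hP]
  · rintro rfl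
    exact ⟨fun h => invol_ne hP (mem_univ i) h.symm, Or.inl rfl⟩

lemma adj_pr {i : Fin m} {t : Fin r} : (GP r P).Adj (pv i) (Sum.inr t) ↔ i.val = 0 := by
  simp [GP, Rel]

lemma adj_sr {i : Fin m} {t : Fin r} : ¬ (GP r P).Adj (sv i) (Sum.inr t) := by
  simp [GP, Rel]

lemma adj_rr {t t' : Fin r} : ¬ (GP r P).Adj (Sum.inr t) (Sum.inr t') := by
  simp [GP, Rel]

end adj

/-- the spokes used by `H` -/
def xx {m r : ℕ} (H : SimpleGraph (W m r)) (i : Fin m) : Prop := H.Adj (sv i) (pv i)

/-- the path edges used by `H` (indexed by the right end) -/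
def rr {m r : ℕ} (H : SimpleGraph (W m r)) (t : ℕ) : Prop :=
  ∃ i i' : Fin m, i.val + 1 = i'.val ∧ i'.val = t ∧ H.Adj (pv i) (pv i')

lemma rr_iff {m r : ℕ} {H : SimpleGraph (W m r)} {i i' : Fin m} (h : i.val + 1 = i'.val) :
    rr H i'.val ↔ H.Adj (pv i) (pv i') := by
  constructor
  · rintro ⟨a, b, h1, h2, h3⟩
    have hb : b = i' := Fin.ext h2
    have ha : a = i := Fin.ext (by omega)
    rw [ha, hb] at h3
    exact h3
  · intro h'; exact ⟨i, i', h, rfl, h'⟩

lemma rr_iff' {m r : ℕ} {H : SimpleGraph (W m r)} {i i' : Fin m} {t : ℕ} (h : i.val + 1 = i'.val)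
    (ht : i'.val = t) : rr H t ↔ H.Adj (pv i) (pv i') := by
  subst ht
  exact rr_iff h

lemma rr_zero {m r : ℕ} {H : SimpleGraph (W m r)} : ¬ rr H 0 := by
  rintro ⟨i, i', h1, h2, _⟩
  omega

lemma rr_last {m r : ℕ} {H : SimpleGraph (W m r)} {t : ℕ} (ht : m ≤ t) : ¬ rr H t := by
  rintro ⟨i, i', h1, h2, _⟩
  have := i'.2
  omega

section single

variable {m r : ℕ} {P : Perm (Fin m)} {H : SimpleGraph (W m r)}

lemma pend (hle : H ≤ GP r P) (hev : ∀ v, Even (H.neighborSet v).ncard) (t : Fin r)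
    (w : W m r) : ¬ H.Adj (Sum.inr t) w := by
  intro hw
  have h0 : ∀ w', H.Adj (Sum.inr t) w' → ∃ i : Fin m, i.val = 0 ∧ w' = pv i := by
    intro w' hw'
    have hw'' := (hle hw').symm
    rcases w' with ⟨i, b⟩ | t'
    · cases b
      · exact ⟨i, adj_pr.1 hw'', rfl⟩
      · exact absurd hw'' adj_sr
    · exact absurd hw'' adj_rr
  obtain ⟨i, hi, rfl⟩ := h0 w hw
  have h1 : H.neighborSet (Sum.inr t) ⊆ {pv i} := by
    intro w' hw'
    obtain ⟨i', hi', rfl⟩ := h0 w' hw'
    have : i' = i := Fin.ext (by omega)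
    rw [this]; rfl
  have h2 := par1 h1 (hev _)
  have h3 : pv i ∈ H.neighborSet (Sum.inr t) := hw
  rw [h2] at h3
  exact h3

lemma spoke (hP : P ∈ invol univ) (hle : H ≤ GP r P) (hev : ∀ v, Even (H.neighborSet v).ncard)
    (i : Fin m) : xx H i ↔ H.Adj (sv i) (sv (P i)) := by
  have h1 : H.neighborSet (sv i) ⊆ {pv i, sv (P i)} := by
    intro w hw
    have hw' := hle hw
    rcases w with ⟨i', b⟩ | t'
    · cases b
      · have := adj_ps.1 hw'.symm
        simp [this]
      · have := (adj_ss hP).1 hw'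
        simp [this]
    · exact absurd hw' adj_sr
  exact par2 (by simp) h1 (hev _)

lemma spoke_P (hP : P ∈ invol univ) (hle : H ≤ GP r P) (hev : ∀ v, Even (H.neighborSet v).ncard)
    {i : Fin m} (hi : xx H i) : xx H (P i) := by
  rw [spoke hP hle hev] at hi ⊢
  rw [invol_invol hP]
  exact hi.symm

lemma nb_path (hle : H ≤ GP r P) (hev : ∀ v, Even (H.neighborSet v).ncard)
    {i : Fin m} {w : W m r} (hw : H.Adj (pv i) w) :
    w = sv i ∨ ∃ i' : Fin m, w = pv i' ∧ (i.val + 1 = i'.val ∨ i'.val + 1 = i.val) := by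
  have hw' := hle hw
  rcases w with ⟨i', b⟩ | t'
  · cases b
    · right; exact ⟨i', rfl, adj_pp.1 hw'⟩
    · left; rw [adj_ps.1 hw']
  · exact absurd hw.symm (pend hle hev t' _)

lemma path_rel (hm : 2 ≤ m) (hle : H ≤ GP r P) (hev : ∀ v, Even (H.neighborSet v).ncard)
    (i : Fin m) : xx H i ↔ ¬ (rr H i ↔ rr H (i + 1)) := by
  have hxm : xx H i ↔ sv i ∈ H.neighborSet (pv i) := by
    rw [SimpleGraph.mem_neighborSet, SimpleGraph.adj_comm]; rfl
  by_cases h0 : i.val = 0
  · -- first vertex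
    have hlt : i.val + 1 < m := by omega
    obtain ⟨i1, hi1⟩ : ∃ i1 : Fin m, i.val + 1 = i1.val := ⟨⟨_, hlt⟩, rfl⟩
    have h1 : H.neighborSet (pv i) ⊆ {sv i, pv i1} := by
      intro w hw
      rcases nb_path hle hev hw with h | ⟨i', h, h' | h'⟩
      · exact Or.inl h
      · right
        have : i' = i1 := Fin.ext (by omega)
        rw [h, this]; rfl
      · omega
    have h2 := par2 (by simp) h1 (hev _)
    have h3 : rr H (i.val + 1) ↔ H.Adj (pv i) (pv i1) := rr_iff' hi1 hi1.symm
    have h4 : ¬ rr H i.val := by rw [h0]; exact rr_zero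
    rw [hxm, h2, h3, SimpleGraph.mem_neighborSet]
    tauto
  · obtain ⟨i0, hi0⟩ : ∃ i0 : Fin m, i0.val + 1 = i.val :=
      ⟨⟨i.val - 1, by omega⟩, by simp only; omega⟩
    have h3 : rr H i.val ↔ H.Adj (pv i) (pv i0) := by
      rw [rr_iff hi0, SimpleGraph.adj_comm]
    have hne0 : i0 ≠ i := by intro h; rw [h] at hi0; omega
    by_cases hlast : i.val + 1 < m
    · obtain ⟨i1, hi1⟩ : ∃ i1 : Fin m, i.val + 1 = i1.val := ⟨⟨_, hlast⟩, rfl⟩
      have h1 : H.neighborSet (pv i) ⊆ {sv i, pv i0, pv i1} := by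
        intro w hw
        rcases nb_path hle hev hw with h | ⟨i', h, h' | h'⟩
        · exact Or.inl h
        · right; right
          have : i' = i1 := Fin.ext (by omega)
          rw [h, this]; rfl
        · right; left
          have : i' = i0 := Fin.ext (by omega)
          rw [h, this]
      have hne : i0 ≠ i1 := by intro h; rw [h] at hi0; omega
      have h2 := par3 (by simp) (by simp) (by simp [hne]) h1 (hev _)
      have h4 : rr H (i.val + 1) ↔ H.Adj (pv i) (pv i1) := rr_iff' hi1 hi1.symm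
      rw [hxm, h2, h3, h4]
      rfl
    · have h1 : H.neighborSet (pv i) ⊆ {sv i, pv i0} := by
        intro w hw
        rcases nb_path hle hev hw with h | ⟨i', h, h' | h'⟩
        · exact Or.inl h
        · have := i'.2; omega
        · right
          have : i' = i0 := Fin.ext (by omega)
          rw [h, this]; rfl
      have h2 := par2 (by simp) h1 (hev _)
      have h4 : ¬ rr H (i.val + 1) := rr_last (by omega)
      rw [hxm, h2, h3, SimpleGraph.mem_neighborSet]
      tauto

lemma exists_xx (hm : 2 ≤ m) (hP : P ∈ invol univ) (hle : H ≤ GP r P)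
    (hev : ∀ v, Even (H.neighborSet v).ncard) (hbot : H ≠ ⊥) : ∃ i, xx H i := by
  by_contra hcon
  push Not at hcon
  have hρ0 : ∀ t, t ≤ m → ¬ rr H t := by
    intro t
    induction t with
    | zero => intro _; exact rr_zero
    | succ t ih =>
      intro ht
      have h1 := ih (by omega)
      have h2 := mt (path_rel hm hle hev ⟨t, by omega⟩).2 (hcon _)
      simp only [not_not] at h2
      exact fun h => h1 (h2.2 h)
  apply hbot
  ext v w
  simp only [SimpleGraph.bot_adj, iff_false]
  intro hvw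
  have hvw' := hle hvw
  rcases v with ⟨i, b⟩ | t
  · rcases w with ⟨i', b'⟩ | t'
    · cases b <;> cases b'
      · rcases adj_pp.1 hvw' with h | h
        · exact hρ0 i'.val i'.2.le ((rr_iff h).2 hvw)
        · exact hρ0 i.val i.2.le ((rr_iff h).2 hvw.symm)
      · have := adj_ps.1 hvw'
        subst this
        exact hcon i hvw.symm
      · have := adj_ps.1 hvw'.symm
        subst this
        exact hcon i' hvw
      · have := (adj_ss hP).1 hvw'
        subst this
        exact hcon i ((spoke hP hle hev i).2 hvw)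
    · exact pend hle hev t' _ hvw.symm
  · exact pend hle hev t _ hvw

end single

/-- If the graph has `k` disjoint even subgraphs then `P` is bad. -/
lemma bad_of_hasEven {m r k : ℕ} (hm : 2 ≤ m) (P : Perm (Fin m)) (hP : P ∈ invol univ)
    (h : HasEven (GP r P) k) : Bad k P := by
  classical
  obtain ⟨H, hH, hd⟩ := h
  have c3 : ∀ i j t, rr (H i) t → rr (H j) t → i = j := by
    rintro i j t ⟨a, b, h1, h2, h3⟩ ⟨a', b', h1', h2', h3'⟩
    have hb : b = b' := Fin.ext (by omega)
    have ha : a = a' := Fin.ext (by omega)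
    subst ha hb
    by_contra hij
    exact hd i j hij _ _ h3 h3'
  have c4 : ∀ i j t, xx (H i) t → xx (H j) t → i = j := by
    intro i j t h1 h2
    by_contra hij
    exact hd i j hij _ _ h1 h2
  have c1 : ∀ j, ¬ rr (H j) 0 := fun j => rr_zero
  have c2 : ∀ j (i : Fin m), xx (H j) i ↔ ¬ (rr (H j) i ↔ rr (H j) (i + 1)) := fun j i =>
    path_rel hm (hH j).1 (hH j).2.2 i
  obtain ⟨X, hXm⟩ : ∃ X : Finset (Fin m), ∀ i, i ∈ X ↔ ∃ j, xx (H j) i :=
    ⟨univ.filter (fun i => ∃ j, xx (H j) i), by simp⟩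
  have hXP : ∀ i ∈ X, P i ∈ X := by
    intro i hi
    rw [hXm] at hi ⊢
    obtain ⟨j, hj⟩ := hi
    exact ⟨j, spoke_P hP (hH j).1 (hH j).2.2 hj⟩
  have hsig := sig_spec (even_card_of_inv hP hXP)
  refine ⟨X, hXP, fun j => univ.filter (fun i => xx (H j) i), fun j => ⟨?_, ?_, ?_, ?_⟩, ?_⟩
  · obtain ⟨i, hi⟩ := exists_xx hm hP (hH j).1 (hH j).2.2 (hH j).2.1
    exact ⟨i, by simpa using hi⟩
  · intro i hi
    rw [hXm]
    exact ⟨j, by simpa using hi⟩
  · intro i hi
    simp only [mem_filter, mem_univ, true_and] at hi ⊢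
    exact spoke_P hP (hH j).1 (hH j).2.2 hi
  · intro i hi
    simp only [mem_filter, mem_univ, true_and] at hi ⊢
    have hiX : i ∈ X := (hXm i).2 ⟨j, hi⟩
    rcases hsig.2 i hiX with hA | hA
    · exact (arc_lemma (fun j => rr (H j)) (fun j => xx (H j)) c1 c2 c3 c4 X hXm _ _ hA j).1 hi
    · exact (arc_lemma (fun j => rr (H j)) (fun j => xx (H j)) c1 c2 c3 c4 X hXm _ _ hA j).2 hi
  · intro i j hij
    rw [Finset.disjoint_left]
    intro a h1 h2
    simp only [mem_filter, mem_univ, true_and] at h1 h2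
    exact hij (c4 i j a h1 h2)

/-- Number of edges. -/
lemma card_edges {M r : ℕ} (hM : 1 ≤ M) (P : Perm (Fin (2 * M))) (hP : P ∈ invol univ) :
    5 * M - 1 + r ≤ (GP r P).edgeSet.ncard := by
  classical
  set f1 : Fin (2 * M - 1) → Sym2 (W (2 * M) r) := fun i =>
    s(pv ⟨i.val, by omega⟩, pv ⟨i.val + 1, by omega⟩) with hf1
  set f2 : Fin (2 * M) → Sym2 (W (2 * M) r) := fun i => s(pv i, sv i) with hf2
  set f3 : Fin (2 * M) → Sym2 (W (2 * M) r) := fun i => s(sv i, sv (P i)) with hf3
  set f4 : Fin r → Sym2 (W (2 * M) r) := fun t => s(pv ⟨0, by omega⟩, Sum.inr t) with hf4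
  have h1 : (univ.image f1).card = 2 * M - 1 := by
    rw [card_image_of_injective, card_univ, Fintype.card_fin]
    intro a b hab
    simp only [hf1, Sym2.eq_iff, Sum.inl.injEq, Prod.mk.injEq, Fin.ext_iff, and_true] at hab
    apply Fin.ext
    omega
  have h2 : (univ.image f2).card = 2 * M := by
    rw [card_image_of_injective, card_univ, Fintype.card_fin]
    intro a b hab
    simpa [hf2] using hab
  have h3 : M ≤ (univ.image f3).card := by
    have := card_le_mul_card_image (s := (univ : Finset (Fin (2 * M)))) (f := f3) 2 (by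
      intro e he
      obtain ⟨i, _, rfl⟩ := mem_image.1 he
      refine (card_le_card (t := {i, P i}) ?_).trans card_le_two
      intro a ha
      simp only [mem_filter, mem_univ, true_and, hf3, Sym2.eq_iff, Sum.inl.injEq, Prod.mk.injEq,
        and_true] at ha
      simp only [mem_insert, mem_singleton]
      tauto)
    rw [card_univ, Fintype.card_fin] at this
    omega
  have h4 : (univ.image f4).card = r := by
    rw [card_image_of_injective, card_univ, Fintype.card_fin]
    intro a b hab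
    simpa [hf4] using hab
  have hd1 : Disjoint (univ.image f1) (univ.image f2) := by
    rw [disjoint_left]
    intro e he he'
    obtain ⟨i, _, rfl⟩ := mem_image.1 he
    obtain ⟨j, _, hj⟩ := mem_image.1 he'
    simp [hf1, hf2] at hj
  have hd2 : Disjoint (univ.image f1 ∪ univ.image f2) (univ.image f3) := by
    rw [disjoint_left]
    intro e he he'
    obtain ⟨j, _, rfl⟩ := mem_image.1 he'
    rcases mem_union.1 he with h | h
    · obtain ⟨i, _, hi⟩ := mem_image.1 h
      simp [hf1, hf3] at hi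
    · obtain ⟨i, _, hi⟩ := mem_image.1 h
      simp [hf2, hf3] at hi
  have hd3 : Disjoint (univ.image f1 ∪ univ.image f2 ∪ univ.image f3) (univ.image f4) := by
    rw [disjoint_left]
    intro e he he'
    obtain ⟨j, _, rfl⟩ := mem_image.1 he'
    rcases mem_union.1 he with h | h
    · rcases mem_union.1 h with h | h
      · obtain ⟨i, _, hi⟩ := mem_image.1 h
        simp [hf1, hf4] at hi
      · obtain ⟨i, _, hi⟩ := mem_image.1 h
        simp [hf2, hf4] at hi
    · obtain ⟨i, _, hi⟩ := mem_image.1 h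
      simp [hf3, hf4] at hi
  have hsub : ((univ.image f1 ∪ univ.image f2 ∪ univ.image f3 ∪ univ.image f4 :
      Finset (Sym2 (W (2 * M) r))) : Set (Sym2 (W (2 * M) r))) ⊆ (GP r P).edgeSet := by
    intro e he
    rw [mem_coe, mem_union, mem_union, mem_union] at he
    rcases he with ((h | h) | h) | h
    · obtain ⟨i, _, rfl⟩ := mem_image.1 h
      exact adj_pp.2 (Or.inl rfl)
    · obtain ⟨i, _, rfl⟩ := mem_image.1 h
      exact adj_ps.2 rfl
    · obtain ⟨i, _, rfl⟩ := mem_image.1 h
      exact (adj_ss hP).2 rfl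
    · obtain ⟨i, _, rfl⟩ := mem_image.1 h
      exact adj_pr.2 rfl
  calc 5 * M - 1 + r ≤ (univ.image f1 ∪ univ.image f2 ∪ univ.image f3 ∪ univ.image f4).card := by
        rw [card_union_of_disjoint hd3, card_union_of_disjoint hd2, card_union_of_disjoint hd1,
          h1, h2, h4]
        omega
    _ = _ := (Set.ncard_coe_finset _).symm
    _ ≤ _ := Set.ncard_le_ncard hsub (Set.toFinite _)

/-- **Finite form of the lower bound.** -/
theorem exPrime_lower_finite (n k M j : ℕ) (hM : 1 ≤ M) (hn : 4 * M ≤ n)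
    (h : 2 ^ M * (2 * (M + j)) ^ j < (2 * j + 1) ^ k * D j) : n + M - 1 ≤ exPrime n k := by
  obtain ⟨P, hP, hbad⟩ := exists_good k M j h
  have h1 : ¬ HasCycles (GP (n - 4 * M) P) k := fun hc =>
    hbad (bad_of_hasEven (by omega) P hP hc.hasEven)
  have h2 := le_exPrime' (n := n) (by simp; omega) (GP (n - 4 * M) P) h1
  have h3 := card_edges (r := n - 4 * M) hM P hP
  omega

end Pool.Agent.DC31
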