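import Mathlib

/-!
# Counting fixed point free involutions with many common invariant sets
-/

namespace Pool.Agent.DC31

open Finset Equiv

variable {α : Type*} [Fintype α] [DecidableEq α]

/-- the involutions whose set of moved points is exactly `S` -/
def invol (S : Finset α) : Finset (Perm α) :=
  univ.filter (fun P => (∀ x, P (P x) = x) ∧ ∀ x, P x ≠ x ↔ x ∈ S)

/-- `S` contains `k` pairwise disjoint nonempty sets which are invariant under `P` and `σ` -/
def Q (k : ℕ) (P σ : Perm α) (S : Finset α) : Prop :=
  ∃ f : Fin k → Finset α, (∀ j, (f j).Nonempty ∧ f j ⊆ S ∧ (∀ x ∈ f j, P x ∈ f j) ∧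
    (∀ x ∈ f j, σ x ∈ f j)) ∧ ∀ i j, i ≠ j → Disjoint (f i) (f j)

omit [Fintype α] in
lemma ee_iff {S : Finset α} {a b x : α} : x ∈ (S.erase a).erase b ↔ x ∈ S ∧ x ≠ a ∧ x ≠ b := by
  simp only [mem_erase]; tauto

lemma mem_invol {S : Finset α} {P : Perm α} :
    P ∈ invol S ↔ (∀ x, P (P x) = x) ∧ ∀ x, P x ≠ x ↔ x ∈ S := by
  simp [invol]

lemma invol_mem {S : Finset α} {P : Perm α} (h : P ∈ invol S) {x : α} (hx : x ∈ S) : P x ∈ S := by
  rw [mem_invol] at h
  rw [← h.2, h.1]
  exact fun e => ((h.2 x).2 hx) e.symm

lemma invol_ne {S : Finset α} {P : Perm α} (h : P ∈ invol S) {x : α} (hx : x ∈ S) : P x ≠ x :=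
  ((mem_invol.1 h).2 x).2 hx

lemma invol_fix {S : Finset α} {P : Perm α} (h : P ∈ invol S) {x : α} (hx : x ∉ S) : P x = x := by
  by_contra hne
  exact hx (((mem_invol.1 h).2 x).1 hne)

lemma invol_invol {S : Finset α} {P : Perm α} (h : P ∈ invol S) (x : α) : P (P x) = x :=
  (mem_invol.1 h).1 x

omit [Fintype α] in
lemma mul_swap_apply_of_ne {P : Perm α} {a b x : α} (ha : x ≠ a) (hb : x ≠ b) :
    (P * swap a b) x = P x := by
  simp [Perm.mul_apply, swap_apply_of_ne_of_ne ha hb]

lemma mul_swap_mem {S : Finset α} {P : Perm α} {a b : α}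
    (hP : P ∈ invol S) (h : P a = b) (hab : a ≠ b) :
    P * swap a b ∈ invol ((S.erase a).erase b) := by
  have hb : P b = a := by rw [← h, invol_invol hP]
  have key : ∀ x, (P * swap a b) x = if x = a ∨ x = b then x else P x := by
    intro x
    by_cases h1 : x = a
    · subst h1; simp [hb]
    · by_cases h2 : x = b
      · subst h2; simp [h]
      · simp [h1, h2, swap_apply_of_ne_of_ne h1 h2]
  rw [mem_invol]
  refine ⟨fun x => ?_, fun x => ?_⟩
  · rw [key x]
    split_ifs with hx
    · rw [key x, if_pos hx]
    · push Not at hx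
      rw [key (P x), if_neg, invol_invol hP]
      rintro (h1 | h1)
      · exact hx.2 (by rw [← h, ← h1, invol_invol hP])
      · exact hx.1 (by rw [← hb, ← h1, invol_invol hP])
  · rw [key x, ee_iff]
    split_ifs with hx
    · constructor
      · intro h1; exact absurd rfl h1
      · rintro ⟨_, h1, h2⟩; exact absurd hx (by tauto)
    · rw [(mem_invol.1 hP).2 x]; tauto

lemma mul_swap_mem' {S : Finset α} {P : Perm α} {a b : α} (ha : a ∈ S) (hb : b ∈ S)
    (hP : P ∈ invol ((S.erase a).erase b)) (hab : a ≠ b) :
    P * swap a b ∈ invol S ∧ (P * swap a b) a = b := by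
  have hPa : P a = a := invol_fix hP (by simp)
  have hPb : P b = b := invol_fix hP (by simp)
  have key : ∀ x, (P * swap a b) x = if x = a then b else if x = b then a else P x := by
    intro x
    by_cases h1 : x = a
    · subst h1; simp [hPb]
    · by_cases h2 : x = b
      · subst h2; simp [hPa, h1]
      · simp [h1, h2, swap_apply_of_ne_of_ne h1 h2]
  refine ⟨?_, by rw [key]; simp⟩
  rw [mem_invol]
  refine ⟨fun x => ?_, fun x => ?_⟩
  · by_cases h1 : x = a
    · subst h1; rw [key x, if_pos rfl, key b, if_neg hab.symm, if_pos rfl]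
    · by_cases h2 : x = b
      · subst h2; rw [key x, if_neg h1, if_pos rfl, key a, if_pos rfl]
      · rw [key x, if_neg h1, if_neg h2, key (P x), if_neg, if_neg, invol_invol hP]
        · intro h3; exact h2 (by rw [← hPb, ← h3, invol_invol hP])
        · intro h3; exact h1 (by rw [← hPa, ← h3, invol_invol hP])
  · rw [key x]
    by_cases h1 : x = a
    · subst h1; simp [ha, hab.symm]
    · by_cases h2 : x = b
      · subst h2; simp [h1, hb, hab]
      · rw [if_neg h1, if_neg h2, (mem_invol.1 hP).2 x, ee_iff]; tauto

/-- double factorial product -/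
def D (s : ℕ) : ℕ := ∏ i ∈ range s, (2 * i + 1)

/-- `∏ (z + 2 i)` -/
def A (z s : ℕ) : ℕ := ∏ i ∈ range s, (z + 2 * i)

omit [Fintype α] in
lemma card_ee {S : Finset α} {a b : α} {s : ℕ} (ha : a ∈ S) (hb : b ∈ S.erase a)
    (hS : S.card = 2 * (s + 1)) : ((S.erase a).erase b).card = 2 * s := by
  rw [card_erase_of_mem hb, card_erase_of_mem ha, hS]; omega

lemma invol_empty : invol (∅ : Finset α) = {1} := by
  ext P
  rw [mem_invol, mem_singleton]
  constructor
  · rintro ⟨_, h⟩
    ext x
    by_contra hne
    exact absurd ((h x).1 hne) (by simp)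
  · rintro rfl
    simp

lemma card_invol : ∀ (s : ℕ) (S : Finset α), S.card = 2 * s → (invol S).card = D s := by
  intro s
  induction s with
  | zero =>
    intro S hS
    have : S = ∅ := card_eq_zero.1 (by simpa using hS)
    subst this
    simp [invol_empty, D]
  | succ s ih =>
    intro S hS
    obtain ⟨a, ha⟩ : S.Nonempty := card_pos.1 (by omega)
    have h1 : (invol S).card = ∑ b ∈ S.erase a, ((invol S).filter (fun P => P a = b)).card := by
      apply card_eq_sum_card_fiberwise
      intro P hP
      simp only [mem_coe] at hP ⊢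
      exact mem_erase.2 ⟨invol_ne hP ha, invol_mem hP ha⟩
    rw [h1]
    have h2 : ∀ b ∈ S.erase a, ((invol S).filter (fun P => P a = b)).card = D s := by
      intro b hb
      have hbS := mem_of_mem_erase hb
      have hab : a ≠ b := (ne_of_mem_erase hb).symm
      rw [← ih _ (card_ee ha hb hS)]
      apply card_bij (fun P _ => P * swap a b)
      · intro P hP
        rw [mem_filter] at hP
        exact mul_swap_mem hP.1 hP.2 hab
      · intro P _ P' _ h
        exact mul_right_cancel h
      · intro P' hP'
        refine ⟨P' * swap a b, ?_, ?_⟩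
        · rw [mem_filter]
          exact mul_swap_mem' ha hbS hP' hab
        · simp [mul_assoc]
    rw [sum_congr rfl h2, sum_const, card_erase_of_mem ha, hS, smul_eq_mul]
    simp only [D, prod_range_succ]
    rw [mul_comm]
    congr 1

open Classical in
/-- **Key lemma.** -/
lemma key_count (z : ℕ) (hz : 1 ≤ z) : ∀ (s k : ℕ) (S : Finset α) (σ : Perm α), S.card = 2 * s →
    σ ∈ invol S → z ^ k * ((invol S).filter (fun P => Q k P σ S)).card ≤ A z s := by
  intro s
  induction s with
  | zero =>
    intro k S σ hS hσ
    have : S = ∅ := card_eq_zero.1 (by simpa using hS)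
    subst this
    rcases Nat.eq_zero_or_pos k with rfl | hk
    · calc z ^ 0 * ((invol (∅ : Finset α)).filter (fun P => Q 0 P σ ∅)).card
          ≤ 1 * (invol (∅ : Finset α)).card := by
            rw [pow_zero]; exact Nat.mul_le_mul_left _ (card_filter_le _ _)
        _ = 1 := by rw [invol_empty]; simp
        _ ≤ A z 0 := by simp [A]
    · have : (invol (∅ : Finset α)).filter (fun P => Q k P σ ∅) = ∅ := by
        apply filter_eq_empty_iff.2
        rintro P _ ⟨f, h1, _⟩
        obtain ⟨x, hx⟩ := (h1 ⟨0, hk⟩).1
        exact absurd ((h1 ⟨0, hk⟩).2.1 hx) (by simp)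
      rw [this]; simp
  | succ s ih =>
    intro k S σ hS hσ
    obtain ⟨a, ha⟩ : S.Nonempty := card_pos.1 (by omega)
    set a' := σ a with ha'
    have ha'S : a' ∈ S := invol_mem hσ ha
    have haa' : a ≠ a' := (invol_ne hσ ha).symm
    have h1 : ((invol S).filter (fun P => Q k P σ S)).card =
        ∑ b ∈ S.erase a, (((invol S).filter (fun P => Q k P σ S)).filter (fun P => P a = b)).card := by
      apply card_eq_sum_card_fiberwise
      intro P hP
      simp only [mem_coe, mem_filter] at hP ⊢
      exact mem_erase.2 ⟨invol_ne hP.1 ha, invol_mem hP.1 ha⟩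
    rw [h1, mul_sum]
    -- the fiber over a'
    have hf1 : z ^ k * (((invol S).filter (fun P => Q k P σ S)).filter (fun P => P a = a')).card ≤
        z * A z s := by
      have hinj : (((invol S).filter (fun P => Q k P σ S)).filter (fun P => P a = a')).card ≤
          ((invol ((S.erase a).erase a')).filter
            (fun P => Q (k - 1) P (σ * swap a a') ((S.erase a).erase a'))).card := by
        apply card_le_card_of_injOn (fun P => P * swap a a')
        · intro P hP
          simp only [coe_filter, mem_filter, Set.mem_ofPred_eq] at hP ⊢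
          obtain ⟨⟨hP, f, hf, hd⟩, hPa⟩ := hP
          refine ⟨mul_swap_mem hP hPa haa', ?_⟩
          have hPa' : P a' = a := by rw [← hPa, invol_invol hP]
          have hσa' : σ a' = a := by rw [ha', invol_invol hσ]
          -- sets not containing a
          have hgood : ∀ j, a ∉ f j → (f j).Nonempty ∧ f j ⊆ (S.erase a).erase a' ∧
              (∀ x ∈ f j, (P * swap a a') x ∈ f j) ∧ (∀ x ∈ f j, (σ * swap a a') x ∈ f j) := by
            intro j hj
            have hj' : a' ∉ f j := fun h => hj (by rw [← hσa']; exact (hf j).2.2.2 _ h)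
            refine ⟨(hf j).1, fun x hx => ?_, fun x hx => ?_, fun x hx => ?_⟩
            · rw [ee_iff]
              exact ⟨(hf j).2.1 hx, fun e => hj (e ▸ hx), fun e => hj' (e ▸ hx)⟩
            · have e1 : x ≠ a := fun e => hj (e ▸ hx)
              have e2 : x ≠ a' := fun e => hj' (e ▸ hx)
              rw [mul_swap_apply_of_ne e1 e2]
              exact (hf j).2.2.1 _ hx
            · have e1 : x ≠ a := fun e => hj (e ▸ hx)
              have e2 : x ≠ a' := fun e => hj' (e ▸ hx)
              rw [mul_swap_apply_of_ne e1 e2]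
              exact (hf j).2.2.2 _ hx
          rcases Nat.eq_zero_or_pos k with rfl | hk
          · refine ⟨fun j => f (Fin.cast (by simp) j), fun j => ?_, fun i j _ => ?_⟩
            · exact (Fin.cast (by simp) j : Fin 0).elim0
            · exact (Fin.cast (by simp) j : Fin 0).elim0
          · -- drop one index
            obtain ⟨k, rfl⟩ : ∃ k', k = k' + 1 := ⟨k - 1, by omega⟩
            obtain ⟨j0, hj0⟩ : ∃ j0 : Fin (k + 1), ∀ j, j ≠ j0 → a ∉ f j := by
              by_cases hex : ∃ j0, a ∈ f j0
              · obtain ⟨j0, hj0⟩ := hex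
                refine ⟨j0, fun j hj haj => ?_⟩
                exact (Finset.disjoint_left.1 (hd j j0 hj) haj) hj0
              · push Not at hex
                exact ⟨0, fun j _ => hex j⟩
            refine ⟨fun j => f (j0.succAbove (Fin.cast (by simp) j)), fun j => ?_, fun i j hij => ?_⟩
            · exact hgood _ (hj0 _ (Fin.succAbove_ne _ _))
            · apply hd
              intro e
              apply hij
              have := Fin.succAbove_right_injective e
              simpa using this
        · intro P _ P' _ h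
          exact mul_right_cancel h
      have hcard : ((S.erase a).erase a').card = 2 * s :=
        card_ee ha (mem_erase.2 ⟨haa'.symm, ha'S⟩) hS
      have hσ' : σ * swap a a' ∈ invol ((S.erase a).erase a') := mul_swap_mem hσ rfl haa'
      have := ih (k - 1) _ _ hcard hσ'
      rcases Nat.eq_zero_or_pos k with rfl | hk
      · simp only [pow_zero, one_mul, Nat.zero_sub] at this ⊢
        calc _ ≤ _ := hinj
          _ ≤ A z s := by simpa using this
          _ ≤ z * A z s := Nat.le_mul_of_pos_left _ hz
      · obtain ⟨k, rfl⟩ : ∃ k', k = k' + 1 := ⟨k - 1, by omega⟩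
        rw [pow_succ, mul_comm (z ^ k) z, mul_assoc]
        apply Nat.mul_le_mul_left
        refine le_trans (Nat.mul_le_mul_left _ hinj) ?_
        simpa using this
    have hf2 : ∀ b ∈ (S.erase a).erase a',
        z ^ k * (((invol S).filter (fun P => Q k P σ S)).filter (fun P => P a = b)).card ≤
          A z s := by
      intro b hb
      rw [ee_iff] at hb
      obtain ⟨hbS, hba, hba'⟩ := hb
      set b' := σ b with hb'
      have hb'S : b' ∈ S := invol_mem hσ hbS
      have hσa' : σ a' = a := by rw [ha', invol_invol hσ]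
      have hσb' : σ b' = b := by rw [hb', invol_invol hσ]
      have hbb' : b' ≠ b := invol_ne hσ hbS
      have hb'a : b' ≠ a := by
        intro e
        apply hba'
        rw [← hσb', e]
      have hb'a' : b' ≠ a' := by
        intro e
        apply hba
        rw [← hσb', e, hσa']
      -- new σ
      set τ : Perm α := σ * swap a a' * swap b b' * swap a' b' with hτ
      have hτ1 : τ a = a := by
        simp only [hτ, Perm.mul_apply]
        rw [swap_apply_of_ne_of_ne haa' hb'a.symm, swap_apply_of_ne_of_ne hba.symm hb'a.symm,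
          swap_apply_left, hσa']
      have hτ2 : τ b = b := by
        simp only [hτ, Perm.mul_apply]
        rw [swap_apply_of_ne_of_ne hba' hbb'.symm, swap_apply_left,
          swap_apply_of_ne_of_ne hb'a hb'a', hσb']
      have hτ3 : τ a' = b' := by
        simp only [hτ, Perm.mul_apply]
        rw [swap_apply_left, swap_apply_right, swap_apply_of_ne_of_ne hba hba']
      have hτ4 : τ b' = a' := by
        simp only [hτ, Perm.mul_apply]
        rw [swap_apply_right, swap_apply_of_ne_of_ne hba'.symm hb'a'.symm, swap_apply_right]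
      have hτ5 : ∀ x, x ≠ a → x ≠ a' → x ≠ b → x ≠ b' → τ x = σ x := by
        intro x h1 h2 h3 h4
        simp only [hτ, Perm.mul_apply]
        rw [swap_apply_of_ne_of_ne h2 h4, swap_apply_of_ne_of_ne h3 h4,
          swap_apply_of_ne_of_ne h1 h2]
      have hτm : τ ∈ invol ((S.erase a).erase b) := by
        rw [mem_invol]
        refine ⟨fun x => ?_, fun x => ?_⟩
        · by_cases h1 : x = a
          · subst h1; rw [hτ1, hτ1]
          by_cases h2 : x = a'
          · rw [h2, hτ3, hτ4]
          by_cases h3 : x = b
          · subst h3; rw [hτ2, hτ2]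
          by_cases h4 : x = b'
          · rw [h4, hτ4, hτ3]
          rw [hτ5 x h1 h2 h3 h4, hτ5 (σ x), invol_invol hσ]
          · intro e; apply h2; rw [ha', ← e, invol_invol hσ]
          · intro e; apply h1; rw [← hσa', ← e, invol_invol hσ]
          · intro e; apply h4; rw [hb', ← e, invol_invol hσ]
          · intro e; apply h3; rw [← hσb', ← e, invol_invol hσ]
        · rw [ee_iff]
          by_cases h1 : x = a
          · subst h1; rw [hτ1]; simp
          by_cases h2 : x = a'
          · rw [h2, hτ3]
            exact ⟨fun _ => ⟨ha'S, haa'.symm, hba'.symm⟩, fun _ => hb'a'⟩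
          by_cases h3 : x = b
          · subst h3; rw [hτ2]; simp
          by_cases h4 : x = b'
          · rw [h4, hτ4]
            exact ⟨fun _ => ⟨hb'S, hb'a, hbb'⟩, fun _ => hb'a'.symm⟩
          rw [hτ5 x h1 h2 h3 h4, (mem_invol.1 hσ).2 x]
          tauto
      have hinj : (((invol S).filter (fun P => Q k P σ S)).filter (fun P => P a = b)).card ≤
          ((invol ((S.erase a).erase b)).filter
            (fun P => Q k P τ ((S.erase a).erase b))).card := by
        apply card_le_card_of_injOn (fun P => P * swap a b)
        · intro P hP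
          simp only [coe_filter, mem_filter, Set.mem_ofPred_eq] at hP ⊢
          obtain ⟨⟨hP, f, hf, hd⟩, hPa⟩ := hP
          refine ⟨mul_swap_mem hP hPa hba.symm, ?_⟩
          have hPb : P b = a := by rw [← hPa, invol_invol hP]
          refine ⟨fun j => ((f j).erase a).erase b, fun j => ⟨?_, ?_, ?_, ?_⟩, fun i j hij => ?_⟩
          · obtain ⟨x, hx⟩ := (hf j).1
            by_cases h1 : x = a
            · refine ⟨a', ?_⟩
              rw [ee_iff]
              exact ⟨(hf j).2.2.2 _ (h1 ▸ hx), haa'.symm, hba'.symm⟩
            · by_cases h2 : x = b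
              · refine ⟨b', ?_⟩
                rw [ee_iff]
                exact ⟨(hf j).2.2.2 _ (h2 ▸ hx), hb'a, hbb'⟩
              · exact ⟨x, ee_iff.2 ⟨hx, h1, h2⟩⟩
          · intro x hx
            rw [ee_iff] at hx ⊢
            exact ⟨(hf j).2.1 hx.1, hx.2⟩
          · intro x hx
            rw [ee_iff] at hx
            rw [mul_swap_apply_of_ne hx.2.1 hx.2.2, ee_iff]
            refine ⟨(hf j).2.2.1 _ hx.1, fun e => ?_, fun e => ?_⟩
            · exact hx.2.2 (by rw [← hPa, ← e, invol_invol hP])
            · exact hx.2.1 (by rw [← hPb, ← e, invol_invol hP])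
          · intro x hx
            rw [ee_iff] at hx
            obtain ⟨hx, h1, h3⟩ := hx
            by_cases h2 : x = a'
            · rw [h2, hτ3, ee_iff]
              refine ⟨?_, hb'a, hbb'⟩
              have e1 : a ∈ f j := by rw [← hσa']; exact (hf j).2.2.2 _ (h2 ▸ hx)
              have e2 : b ∈ f j := by rw [← hPa]; exact (hf j).2.2.1 _ e1
              exact (hf j).2.2.2 _ e2
            by_cases h4 : x = b'
            · rw [h4, hτ4, ee_iff]
              refine ⟨?_, haa'.symm, hba'.symm⟩
              have e1 : b ∈ f j := by rw [← hσb']; exact (hf j).2.2.2 _ (h4 ▸ hx)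
              have e2 : a ∈ f j := by rw [← hPb]; exact (hf j).2.2.1 _ e1
              exact (hf j).2.2.2 _ e2
            rw [hτ5 x h1 h2 h3 h4, ee_iff]
            refine ⟨(hf j).2.2.2 _ hx, fun e => ?_, fun e => ?_⟩
            · exact h2 (by rw [ha', ← e, invol_invol hσ])
            · exact h4 (by rw [hb', ← e, invol_invol hσ])
          · refine Disjoint.mono ?_ ?_ (hd i j hij)
            · exact (erase_subset _ _).trans (erase_subset _ _)
            · exact (erase_subset _ _).trans (erase_subset _ _)
        · intro P _ P' _ h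
          exact mul_right_cancel h
      refine le_trans (Nat.mul_le_mul_left _ hinj) ?_
      exact ih k _ _ (card_ee ha (mem_erase.2 ⟨hba, hbS⟩) hS) hτm
    have ha'e : a' ∈ S.erase a := mem_erase.2 ⟨haa'.symm, ha'S⟩
    rw [← add_sum_erase _ _ ha'e]
    have h3 : ∑ b ∈ (S.erase a).erase a',
        z ^ k * (((invol S).filter (fun P => Q k P σ S)).filter (fun P => P a = b)).card ≤
        (2 * s) * A z s := by
      refine le_trans (sum_le_sum hf2) ?_
      rw [sum_const, card_ee ha ha'e hS, smul_eq_mul]
    calc _ ≤ z * A z s + (2 * s) * A z s := Nat.add_le_add hf1 h3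
      _ = A z (s + 1) := by rw [A, A, prod_range_succ]; ring

end Pool.Agent.DC31
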