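import Pool.Agent.DC31.Moore

/-!
# Lower bounds for `ex'` from graphs without short cycles
-/

namespace Pool.Agent.DC31

open Finset SimpleGraph

section transfer

variable {V W : Type*} {G : SimpleGraph V} (f : V ↪ W)

lemma lift_walk {x y : W} (p : (G.map f).Walk x y) :
    ∀ a, f a = x → ∃ b, ∃ q : G.Walk a b, f b = y ∧ q.support.map f = p.support := by
  induction p with
  | nil =>
    intro a ha
    exact ⟨a, Walk.nil, ha, by simp [ha]⟩
  | @cons x z y h p ih =>
    intro a ha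
    rw [SimpleGraph.map_adj] at h
    obtain ⟨a', b', hab, ha', hb'⟩ := h
    have : a' = a := f.injective (by rw [ha', ha])
    subst this
    obtain ⟨b, q, hb, hq⟩ := ih b' hb'
    exact ⟨b, Walk.cons hab q, hb, by simp [hq, ha]⟩

lemma HasCycles.of_map {k : ℕ} (h : HasCycles (G.map f) k) : HasCycles G k := by
  obtain ⟨u, c, hc, hd⟩ := h
  have hex : ∀ i, ∃ a : V, ∃ q : G.Walk a a, q.IsCycle ∧ q.edges.map (Sym2.map f) = (c i).edges := by
    intro i
    have hnil : ¬ (c i).Nil := (hc i).not_nil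
    have hadj := (c i).adj_snd hnil
    rw [SimpleGraph.map_adj] at hadj
    obtain ⟨a, b, hab, ha, _⟩ := hadj
    obtain ⟨b', q, hb', hq⟩ := lift_walk f (c i) a ha
    have hb'' : b' = a := f.injective (by rw [hb', ha])
    subst hb''
    have key : ∀ (x : W) (d : (G.map f).Walk x x), f b' = x → d.IsCycle →
        q.support.map f = d.support → q.IsCycle ∧ q.edges.map (Sym2.map f) = d.edges := by
      rintro x d rfl hdc hsup
      have e1 : q.map (SimpleGraph.Embedding.map f G).toHom = d := by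
        apply Walk.ext_support
        rw [Walk.support_map]
        exact hsup
      constructor
      · rw [← Walk.isCycle_map_iff_of_injective (f := (SimpleGraph.Embedding.map f G).toHom)
          f.injective, e1]
        exact hdc
      · have h2 : (q.map (SimpleGraph.Embedding.map f G).toHom).edges =
            q.edges.map (Sym2.map f) := Walk.edges_map _ _
        exact h2.symm.trans (congrArg Walk.edges e1)
    exact ⟨b', q, key (u i) (c i) hb' (hc i) hq⟩
  choose a q hq1 hq2 using hex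
  refine ⟨a, q, hq1, fun i j hij e he he' => ?_⟩
  apply hd i j hij (Sym2.map f e)
  · rw [← hq2]; exact List.mem_map_of_mem he
  · rw [← hq2]; exact List.mem_map_of_mem he'

end transfer

/-- A graph on at most `n` vertices gives a lower bound. -/
lemma le_exPrime_of_card_le {V : Type*} [Fintype V] {n k : ℕ} (hV : Fintype.card V ≤ n)
    (G : SimpleGraph V) (h : ¬ HasCycles G k) : G.edgeSet.ncard ≤ exPrime n k := by
  obtain ⟨f⟩ : Nonempty (V ↪ Fin n) := Function.Embedding.nonempty_of_card_le (by simpa using hV)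
  have h1 : ¬ HasCycles (G.map f) k := fun hc => h (HasCycles.of_map f hc)
  have h2 : (G.map f).edgeSet.ncard = G.edgeSet.ncard := by
    rw [SimpleGraph.edgeSet_map]
    apply Set.ncard_image_of_injective
    exact Sym2.map.injective f.injective
  rw [← h2]
  exact le_exPrime _ h1

lemma NoShort.mono {V : Type*} {G H : SimpleGraph V} {g : ℕ} (h : NoShort G g) (hle : H ≤ G) :
    NoShort H g := by
  intro v c hc
  have := h v (c.mapLe hle) ((Walk.isCycle_mapLe hle).2 hc)
  rwa [Walk.length_mapLe] at this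

/-- `k` disjoint cycles of length at least `g` use `g k` edges. -/
lemma mul_le_of_hasCycles {V : Type*} [Finite V] {G : SimpleGraph V} {g k : ℕ}
    (hG : NoShort G g) (h : HasCycles G k) : g * k ≤ G.edgeSet.ncard := by
  classical
  obtain ⟨u, c, hc, hd⟩ := h
  have h1 : ((univ : Finset (Fin k)).biUnion (fun i => (c i).edges.toFinset)).card =
      ∑ i : Fin k, (c i).edges.toFinset.card := by
    apply card_biUnion
    intro i _ j _ hij
    rw [Function.onFun, Finset.disjoint_left]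
    intro e he he'
    exact hd i j hij e (by simpa using he) (by simpa using he')
  have h2 : ∀ i : Fin k, g ≤ (c i).edges.toFinset.card := by
    intro i
    rw [List.toFinset_card_of_nodup (hc i).isTrail.edges_nodup, Walk.length_edges]
    exact hG _ _ (hc i)
  have h3 : g * k ≤ ∑ i : Fin k, (c i).edges.toFinset.card := by
    calc g * k = ∑ _i : Fin k, g := by simp [mul_comm]
      _ ≤ _ := sum_le_sum (fun i _ => h2 i)
  rw [← h1] at h3
  refine h3.trans ?_
  rw [← Set.ncard_coe_finset]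
  apply Set.ncard_le_ncard _ (Set.toFinite _)
  intro e he
  simp only [coe_biUnion, coe_univ, Set.mem_univ, Set.iUnion_true, Set.mem_iUnion, mem_coe,
    List.mem_toFinset] at he
  obtain ⟨i, hi⟩ := he
  exact Walk.edges_subset_edgeSet _ hi

/-- Lower bound from a graph without short cycles. -/
lemma lower_of_noShort {V : Type*} [Fintype V] {n k g m : ℕ} (hV : Fintype.card V ≤ n)
    (G : SimpleGraph V) (hG : NoShort G g) (hm : m ≤ G.edgeSet.ncard) (hk : m < g * k) :
    m ≤ exPrime n k := by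
  obtain ⟨E, hE, hEm⟩ := Set.exists_subset_card_eq hm
  set H : SimpleGraph V := fromEdgeSet E with hH
  have hHE : H.edgeSet = E := by
    rw [hH, edgeSet_fromEdgeSet]
    ext e
    simp only [Set.mem_sdiff, and_iff_left_iff_imp]
    intro he
    exact G.not_isDiag_of_mem_edgeSet (hE he)
  have hle : H ≤ G := by
    rw [← edgeSet_subset_edgeSet, hHE]
    exact hE
  have h1 : ¬ HasCycles H k := by
    intro hc
    have := mul_le_of_hasCycles (hG.mono hle) hc
    rw [hHE, hEm] at this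
    omega
  have h2 := le_exPrime_of_card_le hV H h1
  rw [hHE, hEm] at h2
  exact h2

section inc

variable {P L : Type*}

/-- incidence graph of a relation -/
def incG (I : P → L → Prop) : SimpleGraph (P ⊕ L) where
  Adj x y := match x, y with
    | Sum.inl p, Sum.inr l => I p l
    | Sum.inr l, Sum.inl p => I p l
    | _, _ => False
  symm := by
    constructor
    rintro (p | l) (p' | l') h <;> exact h
  loopless := by
    constructor
    rintro (p | l) h <;> exact h

/-- the colouring -/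
def incCol (I : P → L → Prop) : (incG I).Coloring Bool :=
  Coloring.mk (fun x => match x with | Sum.inl _ => true | Sum.inr _ => false) (by
    rintro (p | l) (p' | l') h <;> simp_all [incG])

lemma even_len (I : P → L → Prop) {v : P ⊕ L} (c : (incG I).Walk v v) : Even c.length := by
  rw [(incCol I).even_length_iff_congr c]

lemma noShort4 (I : P → L → Prop) : NoShort (incG I) 4 := by
  intro v c hc
  have h1 := hc.three_le_length
  obtain ⟨t, ht⟩ := even_len I c
  omega

/-- vertices of a short cycle -/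
lemma cyc4 {V : Type*} {G : SimpleGraph V} {v : V} {c : G.Walk v v} (hc : c.IsCycle)
    (hl : c.length = 4) : ∃ v0 v1 v2 v3, G.Adj v0 v1 ∧ G.Adj v1 v2 ∧ G.Adj v2 v3 ∧ G.Adj v3 v0 ∧
      v0 ≠ v2 ∧ v1 ≠ v3 := by
  have hi := hc.getVert_injOn'
  have h4 : c.getVert 4 = c.getVert 0 := by
    have : c.getVert 4 = v := by rw [← hl]; exact Walk.getVert_length c
    rw [this, Walk.getVert_zero]
  refine ⟨c.getVert 0, c.getVert 1, c.getVert 2, c.getVert 3, c.adj_getVert_succ (by omega),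
    c.adj_getVert_succ (by omega), c.adj_getVert_succ (by omega), ?_, ?_, ?_⟩
  · rw [← h4]; exact c.adj_getVert_succ (by omega)
  · intro h
    have := hi (by simp) (by simp; omega) h
    omega
  · intro h
    have := hi (by simp; omega) (by simp; omega) h
    omega

lemma cyc6 {V : Type*} {G : SimpleGraph V} {v : V} {c : G.Walk v v} (hc : c.IsCycle)
    (hl : c.length = 6) : ∃ v0 v1 v2 v3 v4 v5, G.Adj v0 v1 ∧ G.Adj v1 v2 ∧ G.Adj v2 v3 ∧
      G.Adj v3 v4 ∧ G.Adj v4 v5 ∧ G.Adj v5 v0 ∧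
      v0 ≠ v2 ∧ v2 ≠ v4 ∧ v4 ≠ v0 ∧ v1 ≠ v3 ∧ v3 ≠ v5 ∧ v5 ≠ v1 := by
  have hi := hc.getVert_injOn'
  have h6 : c.getVert 6 = c.getVert 0 := by
    have : c.getVert 6 = v := by rw [← hl]; exact Walk.getVert_length c
    rw [this, Walk.getVert_zero]
  refine ⟨c.getVert 0, c.getVert 1, c.getVert 2, c.getVert 3, c.getVert 4, c.getVert 5,
    c.adj_getVert_succ (by omega), c.adj_getVert_succ (by omega), c.adj_getVert_succ (by omega),
    c.adj_getVert_succ (by omega), c.adj_getVert_succ (by omega), ?_, ?_, ?_, ?_, ?_, ?_, ?_⟩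
  · rw [← h6]; exact c.adj_getVert_succ (by omega)
  all_goals
    intro h
    have := hi (by simp; try omega) (by simp; try omega) h
    omega

/-- no 4-cycle in the incidence relation -/
def NoC4 (I : P → L → Prop) : Prop :=
  ∀ p p' l l', p ≠ p' → l ≠ l' → I p l → I p' l → I p l' → I p' l' → False

/-- no 6-cycle in the incidence relation -/
def NoC6 (I : P → L → Prop) : Prop :=
  ∀ p q r l m n, p ≠ q → q ≠ r → r ≠ p → l ≠ m → m ≠ n → n ≠ l →
    I p l → I q l → I q m → I r m → I r n → I p n → False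

lemma noShort6 {I : P → L → Prop} (h4 : NoC4 I) : NoShort (incG I) 6 := by
  intro v c hc
  have h1 := noShort4 I v c hc
  obtain ⟨t, ht⟩ := even_len I c
  by_contra hcon
  obtain ⟨v0, v1, v2, v3, a1, a2, a3, a4, n1, n2⟩ := cyc4 hc (by omega)
  rcases v0 with p0 | l0 <;> rcases v1 with p1 | l1 <;> rcases v2 with p2 | l2 <;>
    rcases v3 with p3 | l3 <;> simp only [incG] at a1 a2 a3 a4
  · exact h4 p0 p2 l1 l3 (fun h => n1 (by rw [h])) (fun h => n2 (by rw [h])) a1 a2 a4 a3
  · exact h4 p1 p3 l0 l2 (fun h => n2 (by rw [h])) (fun h => n1 (by rw [h])) a1 a4 a2 a3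

lemma noShort8 {I : P → L → Prop} (h4 : NoC4 I) (h6 : NoC6 I) : NoShort (incG I) 8 := by
  intro v c hc
  have h1 := noShort6 h4 v c hc
  obtain ⟨t, ht⟩ := even_len I c
  by_contra hcon
  obtain ⟨v0, v1, v2, v3, v4, v5, a1, a2, a3, a4, a5, a6, n1, n2, n3, n4, n5, n6⟩ :=
    cyc6 hc (by omega)
  rcases v0 with p0 | l0 <;> rcases v1 with p1 | l1 <;> simp only [incG] at a1 <;>
  rcases v2 with p2 | l2 <;> simp only [incG] at a2 <;>
  rcases v3 with p3 | l3 <;> simp only [incG] at a3 <;>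
  rcases v4 with p4 | l4 <;> simp only [incG] at a4 <;>
  rcases v5 with p5 | l5 <;> simp only [incG] at a5 a6
  · exact h6 p0 p2 p4 l1 l3 l5 (fun h => n1 (by rw [h])) (fun h => n2 (by rw [h]))
      (fun h => n3 (by rw [h])) (fun h => n4 (by rw [h])) (fun h => n5 (by rw [h]))
      (fun h => n6 (by rw [h])) a1 a2 a3 a4 a5 a6
  · exact h6 p1 p3 p5 l2 l4 l0 (fun h => n4 (by rw [h])) (fun h => n5 (by rw [h]))
      (fun h => n6 (by rw [h])) (fun h => n2 (by rw [h])) (fun h => n3 (by rw [h]))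
      (fun h => n1 (by rw [h])) a2 a3 a4 a5 a6 a1

end inc

section constructions

/-- `K_{a,b}` -/
lemma lower4 {n k m : ℕ} (a b : ℕ) (hn : a + b ≤ n) (hm : m ≤ a * b) (hk : m < 4 * k) :
    m ≤ exPrime n k := by
  apply lower_of_noShort (V := Fin a ⊕ Fin b) (by simpa using hn) (incG (fun _ _ => True))
    (noShort4 _) _ hk
  refine hm.trans ?_
  have h1 : Set.range (fun x : Fin a × Fin b => (s(Sum.inl x.1, Sum.inr x.2) :
      Sym2 (Fin a ⊕ Fin b))) ⊆ (incG (fun (_ : Fin a) (_ : Fin b) => True)).edgeSet := by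
    rintro _ ⟨x, rfl⟩
    exact trivial
  have h2 := Set.ncard_le_ncard h1 (Set.toFinite _)
  refine le_trans (le_of_eq ?_) h2
  rw [← Set.image_univ, Set.ncard_image_of_injective, Set.ncard_univ]
  · simp
  · rintro ⟨x, y⟩ ⟨x', y'⟩ h
    simpa using h

variable {F : Type*} [Field F]

/-- affine plane -/
def I2 (p : F × F) (l : F × F) : Prop := l.1 = p.1 + p.2 * l.2

lemma I2_noC4 : NoC4 (I2 (F := F)) := by
  rintro ⟨a, b⟩ ⟨a', b'⟩ ⟨c, t⟩ ⟨c', t'⟩ hp hl h1 h2 h3 h4
  simp only [I2] at h1 h2 h3 h4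
  have e : (b - b') * (t - t') = 0 := by linear_combination -h1 + h2 + h3 - h4
  rcases mul_eq_zero.1 e with h | h
  · have hb : b = b' := sub_eq_zero.1 h
    apply hp
    have ha : a = a' := by rw [hb] at h1; linear_combination h2 - h1
    rw [ha, hb]
  · have ht : t = t' := sub_eq_zero.1 h
    apply hl
    have hc : c = c' := by rw [h1, h3, ht]
    rw [hc, ht]

lemma lower6 {n k m : ℕ} (p : ℕ) [Fact p.Prime] (hn : 2 * p ^ 2 ≤ n) (hm : m ≤ p ^ 3)
    (hk : m < 6 * k) : m ≤ exPrime n k := by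
  apply lower_of_noShort (V := (ZMod p × ZMod p) ⊕ (ZMod p × ZMod p))
    (by simp only [Fintype.card_sum, Fintype.card_prod, ZMod.card]; nlinarith)
    (incG (I2 (F := ZMod p))) (noShort6 I2_noC4) _ hk
  refine hm.trans ?_
  have h1 : Set.range (fun x : ZMod p × ZMod p × ZMod p =>
      (s(Sum.inl (x.1, x.2.1), Sum.inr (x.1 + x.2.1 * x.2.2, x.2.2)) :
      Sym2 ((ZMod p × ZMod p) ⊕ (ZMod p × ZMod p)))) ⊆ (incG (I2 (F := ZMod p))).edgeSet := by
    rintro _ ⟨x, rfl⟩
    exact rfl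
  have h2 := Set.ncard_le_ncard h1 (Set.toFinite _)
  refine le_trans (le_of_eq ?_) h2
  rw [← Set.image_univ, Set.ncard_image_of_injective, Set.ncard_univ]
  · simp only [Nat.card_eq_fintype_card, Fintype.card_prod, ZMod.card]; ring
  · rintro ⟨x, y, t⟩ ⟨x', y', t'⟩ h
    simp only [Sym2.eq_iff, Sum.inl.injEq, Sum.inr.injEq, Prod.mk.injEq, reduceCtorEq, and_false,
      or_false] at h
    simp only [Prod.mk.injEq]
    exact ⟨h.1.1, h.1.2, h.2.2⟩

/-- Wenger relation -/
def I3 (p : F × F × F) (l : F × F × F) : Prop :=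
  l.1 = p.1 + p.2.1 * l.2.2 ∧ l.2.1 = p.2.1 + p.2.2 * l.2.2

lemma I3_line {a b c x y x' y' t : F} (h : I3 (a, b, c) (x, y, t))
    (h' : I3 (a, b, c) (x', y', t)) : x = x' ∧ y = y' := by
  simp only [I3] at h h'
  exact ⟨by rw [h.1, h'.1], by rw [h.2, h'.2]⟩

lemma I3_pt {a b c a' b' c' x y t : F} (h : I3 (a, b, c) (x, y, t))
    (h' : I3 (a', b', c') (x, y, t)) : b - b' = -t * (c - c') ∧ a - a' = t ^ 2 * (c - c') := by
  simp only [I3] at h h'
  have e1 : b - b' = -t * (c - c') := by linear_combination h'.2 - h.2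
  refine ⟨e1, ?_⟩
  have e2 : a - a' = -t * (b - b') := by linear_combination h'.1 - h.1
  rw [e2, e1]; ring

lemma I3_noC4 : NoC4 (I3 (F := F)) := by
  rintro ⟨a, b, c⟩ ⟨a', b', c'⟩ ⟨x, y, t⟩ ⟨x', y', t'⟩ hp hl h1 h2 h3 h4
  obtain ⟨e1, e2⟩ := I3_pt h1 h2
  obtain ⟨e3, e4⟩ := I3_pt h3 h4
  have e : (c - c') * (t - t') = 0 := by linear_combination e1 - e3
  rcases mul_eq_zero.1 e with h | h
  · apply hp
    have hc : c = c' := sub_eq_zero.1 h
    rw [h, mul_zero] at e1 e2
    rw [sub_eq_zero.1 e1, sub_eq_zero.1 e2, hc]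
  · apply hl
    have ht : t = t' := sub_eq_zero.1 h
    subst ht
    obtain ⟨hx, hy⟩ := I3_line h1 h3
    rw [hx, hy]

lemma I3_noC6 : NoC6 (I3 (F := F)) := by
  rintro ⟨a1, b1, c1⟩ ⟨a2, b2, c2⟩ ⟨a3, b3, c3⟩ ⟨x1, y1, t1⟩ ⟨x2, y2, t2⟩ ⟨x3, y3, t3⟩
    hp hq hr hl hm hn i1 i2 i3 i4 i5 i6
  obtain ⟨e1, f1⟩ := I3_pt i1 i2
  obtain ⟨e2, f2⟩ := I3_pt i3 i4
  obtain ⟨e3, f3⟩ := I3_pt i5 i6
  have h12 : t1 ≠ t2 := by
    intro h; subst h
    obtain ⟨hx, hy⟩ := I3_line i2 i3
    exact hl (by rw [hx, hy])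
  have h23 : t2 ≠ t3 := by
    intro h; subst h
    obtain ⟨hx, hy⟩ := I3_line i4 i5
    exact hm (by rw [hx, hy])
  have h31 : t3 ≠ t1 := by
    intro h; subst h
    obtain ⟨hx, hy⟩ := I3_line i6 i1
    exact hn (by rw [hx, hy])
  -- s1 + s2 + s3 = 0, t1 s1 + t2 s2 + t3 s3 = 0, t1² s1 + ... = 0
  have g1 : t1 * (c1 - c2) + t2 * (c2 - c3) + t3 * (c3 - c1) = 0 := by
    linear_combination e1 + e2 + e3
  have g2 : t1 ^ 2 * (c1 - c2) + t2 ^ 2 * (c2 - c3) + t3 ^ 2 * (c3 - c1) = 0 := by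
    linear_combination -f1 - f2 - f3
  have g3 : (c1 - c2) * ((t1 - t2) * (t1 - t3)) = 0 := by
    linear_combination g2 - (t2 + t3) * g1
  have g4 : c1 - c2 = 0 := by
    rcases mul_eq_zero.1 g3 with h | h
    · exact h
    · rcases mul_eq_zero.1 h with h | h
      · exact absurd (sub_eq_zero.1 h) h12
      · exact absurd (sub_eq_zero.1 h).symm h31
  apply hp
  rw [g4, mul_zero] at e1 f1
  rw [sub_eq_zero.1 e1, sub_eq_zero.1 f1, sub_eq_zero.1 g4]

lemma lower8 {n k m : ℕ} (p : ℕ) [Fact p.Prime] (hn : 2 * p ^ 3 ≤ n) (hm : m ≤ p ^ 4)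
    (hk : m < 8 * k) : m ≤ exPrime n k := by
  apply lower_of_noShort (V := (ZMod p × ZMod p × ZMod p) ⊕ (ZMod p × ZMod p × ZMod p))
    (by simp only [Fintype.card_sum, Fintype.card_prod, ZMod.card]; nlinarith)
    (incG (I3 (F := ZMod p))) (noShort8 I3_noC4 I3_noC6) _ hk
  refine hm.trans ?_
  have h1 : Set.range (fun x : ZMod p × ZMod p × ZMod p × ZMod p =>
      (s(Sum.inl (x.1, x.2.1, x.2.2.1),
        Sum.inr (x.1 + x.2.1 * x.2.2.2, x.2.1 + x.2.2.1 * x.2.2.2, x.2.2.2)) :
      Sym2 ((ZMod p × ZMod p × ZMod p) ⊕ (ZMod p × ZMod p × ZMod p)))) ⊆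
      (incG (I3 (F := ZMod p))).edgeSet := by
    rintro _ ⟨x, rfl⟩
    exact ⟨rfl, rfl⟩
  have h2 := Set.ncard_le_ncard h1 (Set.toFinite _)
  refine le_trans (le_of_eq ?_) h2
  rw [← Set.image_univ, Set.ncard_image_of_injective, Set.ncard_univ]
  · simp only [Nat.card_eq_fintype_card, Fintype.card_prod, ZMod.card]; ring
  · rintro ⟨x, y, z, t⟩ ⟨x', y', z', t'⟩ h
    simp only [Sym2.eq_iff, Sum.inl.injEq, Sum.inr.injEq, Prod.mk.injEq, reduceCtorEq, and_false,
      or_false] at h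
    simp only [Prod.mk.injEq]
    exact ⟨h.1.1, h.1.2.1, h.1.2.2, h.2.2.2⟩

end constructions

end Pool.Agent.DC31
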