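import Pool.Agent.DC31.Defs

/-!
# Moore bound: graphs without short cycles have few edges; greedy packing of short cycles
-/

namespace Pool.Agent.DC31

open Finset SimpleGraph

/-- every cycle of `G` has length at least `g` -/
def NoShort {V : Type*} (G : SimpleGraph V) (g : ℕ) : Prop :=
  ∀ (v : V) (c : G.Walk v v), c.IsCycle → g ≤ c.length

lemma path_unique {V : Type*} {G : SimpleGraph V} {r : ℕ} (hG : NoShort G (2 * r + 1)) {u v : V}
    (p q : G.Walk u v) (hp : p.IsPath) (hq : q.IsPath) (h1 : p.length ≤ r) (h2 : q.length ≤ r) :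
    p = q := by
  classical
  set H : SimpleGraph V := fromEdgeSet {e | e ∈ p.edges ∨ e ∈ q.edges} with hH
  have hle : H ≤ G := by
    intro a b hab
    rw [hH, fromEdgeSet_adj] at hab
    rcases hab.1 with h | h
    · exact Walk.adj_of_mem_edges _ h
    · exact Walk.adj_of_mem_edges _ h
  have hpH : ∀ e ∈ p.edges, e ∈ H.edgeSet := by
    intro e he
    induction e with
    | _ a b =>
      rw [mem_edgeSet, hH, fromEdgeSet_adj]
      exact ⟨Or.inl he, (Walk.adj_of_mem_edges _ he).ne⟩
  have hqH : ∀ e ∈ q.edges, e ∈ H.edgeSet := by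
    intro e he
    induction e with
    | _ a b =>
      rw [mem_edgeSet, hH, fromEdgeSet_adj]
      exact ⟨Or.inr he, (Walk.adj_of_mem_edges _ he).ne⟩
  have hac : H.IsAcyclic := by
    intro w c hc
    have hc' : (c.mapLe hle).IsCycle := (Walk.isCycle_mapLe hle).2 hc
    have h3 := hG w _ hc'
    rw [Walk.length_mapLe] at h3
    have h4 : c.edges ⊆ p.edges ++ q.edges := by
      intro e he
      have := Walk.edges_subset_edgeSet c he
      induction e with
      | _ a b =>
        rw [mem_edgeSet, hH, fromEdgeSet_adj] at this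
        rw [List.mem_append]
        exact this.1
    have h5 : c.edges.length ≤ (p.edges ++ q.edges).length :=
      (List.subperm_of_subset hc.isTrail.edges_nodup h4).length_le
    rw [List.length_append, Walk.length_edges, Walk.length_edges, Walk.length_edges] at h5
    omega
  have h6 := (hac.subsingleton_path u v).elim ⟨p.transfer H hpH, hp.transfer hpH⟩
    ⟨q.transfer H hqH, hq.transfer hqH⟩
  have h7 : p.transfer H hpH = q.transfer H hqH := congrArg Subtype.val h6
  apply Walk.ext_support
  rw [← Walk.support_transfer p hpH, h7, Walk.support_transfer]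

section moore

variable {V : Type*} [Fintype V] [DecidableEq V] {G : SimpleGraph V}

open Classical in
/-- end points of paths of length `t` from `v` inside `S` -/
noncomputable def Nt (G : SimpleGraph V) (S : Finset V) (v : V) (t : ℕ) : Finset V :=
  univ.filter (fun w => ∃ p : G.Walk v w, p.IsPath ∧ p.length = t ∧ ∀ x ∈ p.support, x ∈ S)

open Classical in
lemma Nt_step {r D : ℕ} (hG : NoShort G (2 * r + 1)) {S : Finset V} {v : V}
    (hdeg : ∀ w ∈ S, D + 1 ≤ (S.filter (fun x => G.Adj w x)).card) {t : ℕ} (ht : t + 1 ≤ r) :
    D * (Nt G S v t).card ≤ (Nt G S v (t + 1)).card := by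
  have hex : ∀ w ∈ Nt G S v t, ∃ y : V, ∃ p : G.Walk v w, p.IsPath ∧ p.length = t ∧
      (∀ x ∈ p.support, x ∈ S) ∧ p.penultimate = y := by
    intro w hw
    rw [Nt, mem_filter] at hw
    obtain ⟨_, p, h1, h2, h3⟩ := hw
    exact ⟨_, p, h1, h2, h3, rfl⟩
  have : Nonempty V := ⟨v⟩
  choose! y hy using hex
  set F : V → Finset V := fun w => S.filter (fun x => G.Adj w x ∧ x ≠ y w) with hF
  have hFcard : ∀ w ∈ Nt G S v t, D ≤ (F w).card := by
    intro w hw
    obtain ⟨p, _, _, hps, _⟩ := hy w hw
    have hwS : w ∈ S := hps w (Walk.end_mem_support _)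
    have h1 := hdeg w hwS
    have h2 : S.filter (fun x => G.Adj w x) ⊆ insert (y w) (F w) := by
      intro x hx
      rw [mem_filter] at hx
      rw [mem_insert]
      by_cases h : x = y w
      · exact Or.inl h
      · exact Or.inr (mem_filter.2 ⟨hx.1, hx.2, h⟩)
    have h3 := (card_le_card h2).trans (card_insert_le _ _)
    omega
  -- extended paths
  have hext : ∀ w ∈ Nt G S v t, ∀ x ∈ F w, ∃ q : G.Walk v x, q.IsPath ∧ q.length = t + 1 ∧
      (∀ z ∈ q.support, z ∈ S) ∧ q.penultimate = w := by
    intro w hw x hx
    rw [hF, mem_filter] at hx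
    obtain ⟨hxS, hadj, hne⟩ := hx
    obtain ⟨p, hpw, hlen, hsup, hpen⟩ := hy w hw
    refine ⟨p.concat hadj, ?_, ?_, ?_, Walk.penultimate_concat _ _⟩
    · apply hpw.concat _ hadj
      intro hxs
      apply hne
      -- the path from x to w along p w is the edge
      have hq : (p.dropUntil x hxs).IsPath := hpw.dropUntil hxs
      have hq' : (Walk.cons hadj.symm Walk.nil : G.Walk x w).IsPath := by
        simp [Walk.cons_isPath_iff, hadj.ne']
      have h1 := path_unique hG _ _ hq hq'
        ((Walk.length_dropUntil_le_length _ _).trans (by omega)) (by simp; omega)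
      have h2 : s(w, x) ∈ (p.dropUntil x hxs).edges := by
        rw [h1]; simp [Sym2.eq_swap]
      rw [← hpen]
      exact hpw.eq_penultimate_of_mem_edges (Walk.edges_dropUntil_subset_edges _ _ h2)
    · rw [Walk.length_concat, hlen]
    · intro y hy
      rw [Walk.support_concat, List.mem_append, List.mem_singleton] at hy
      rcases hy with hy | rfl
      · exact hsup y hy
      · exact hxS
  calc D * (Nt G S v t).card = (Nt G S v t).card • D := by rw [smul_eq_mul, mul_comm]
    _ ≤ ∑ w ∈ Nt G S v t, (F w).card := card_nsmul_le_sum _ _ _ hFcard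
    _ = ((Nt G S v t).biUnion F).card := by
        rw [card_biUnion]
        intro w hw w' hw' hne
        rw [Function.onFun, Finset.disjoint_left]
        intro x hx hx'
        obtain ⟨q, h1, h2, _, h4⟩ := hext w hw x hx
        obtain ⟨q', h1', h2', _, h4'⟩ := hext w' hw' x hx'
        have h3 := path_unique hG _ _ h1 h1' (by omega) (by omega)
        exact hne (by rw [← h4, ← h4', h3])
    _ ≤ (Nt G S v (t + 1)).card := by
        apply card_le_card
        intro x hx
        obtain ⟨w, hw, hx⟩ := mem_biUnion.1 hx
        obtain ⟨q, h1, h2, h3, _⟩ := hext w hw x hx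
        rw [Nt, mem_filter]
        exact ⟨mem_univ _, q, h1, h2, h3⟩

open Classical in
lemma moore {r D : ℕ} (hG : NoShort G (2 * r + 1)) {S : Finset V} (hS : S.Nonempty)
    (hdeg : ∀ w ∈ S, D + 1 ≤ (S.filter (fun x => G.Adj w x)).card) : D ^ r ≤ S.card := by
  obtain ⟨v, hv⟩ := hS
  have h : ∀ t, t ≤ r → D ^ t ≤ (Nt G S v t).card := by
    intro t
    induction t with
    | zero =>
      intro _
      rw [pow_zero]
      apply card_pos.2
      refine ⟨v, ?_⟩
      rw [Nt, mem_filter]
      exact ⟨mem_univ _, Walk.nil, Walk.IsPath.nil, rfl, by simpa using hv⟩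
    | succ t ih =>
      intro ht
      rw [pow_succ, mul_comm]
      exact (Nat.mul_le_mul_left _ (ih (by omega))).trans (Nt_step hG hdeg ht)
  refine (h r le_rfl).trans (card_le_card ?_)
  intro w hw
  rw [Nt, mem_filter] at hw
  obtain ⟨_, p, _, _, hp⟩ := hw
  exact hp w (Walk.end_mem_support _)

open Classical in
/-- edges inside `S` -/
noncomputable def eS (G : SimpleGraph V) (S : Finset V) : Finset (Sym2 V) :=
  univ.filter (fun e => e ∈ G.edgeSet ∧ ∀ x ∈ e, x ∈ S)

open Classical in
lemma card_eS_le {r D : ℕ} (hG : NoShort G (2 * r + 1)) (hD : Fintype.card V < D ^ r) :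
    ∀ (m : ℕ) (S : Finset V), S.card = m → (eS G S).card ≤ D * m := by
  intro m
  induction m with
  | zero =>
    intro S hS
    have : S = ∅ := card_eq_zero.1 hS
    subst this
    simp only [mul_zero, Nat.le_zero, card_eq_zero]
    apply filter_eq_empty_iff.2
    intro e _
    induction e with
    | _ a b =>
      rintro ⟨_, h⟩
      have := h a (by simp)
      simp at this
  | succ m ih =>
    intro S hS
    have hne : S.Nonempty := card_pos.1 (by omega)
    by_cases hdeg : ∀ w ∈ S, D + 1 ≤ (S.filter (fun x => G.Adj w x)).card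
    · have h1 := moore hG hne hdeg
      have h2 := card_le_univ S
      omega
    · push Not at hdeg
      obtain ⟨v, hv, hlt⟩ := hdeg
      have h1 := ih (S.erase v) (by rw [card_erase_of_mem hv, hS]; rfl)
      have h2 : eS G S ⊆ eS G (S.erase v) ∪
          (S.filter (fun x => G.Adj v x)).image (fun x => s(v, x)) := by
        intro e he
        rw [eS, mem_filter] at he
        obtain ⟨_, he, heS⟩ := he
        rw [mem_union]
        by_cases hve : v ∈ e
        · right
          obtain ⟨x, rfl⟩ := Sym2.mem_iff_exists.1 hve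
          rw [mem_image]
          exact ⟨x, mem_filter.2 ⟨heS x (by simp), he⟩, rfl⟩
        · left
          rw [eS, mem_filter]
          refine ⟨mem_univ _, he, fun x hx => mem_erase.2 ⟨fun e => hve (e ▸ hx), heS x hx⟩⟩
      have h3 := (card_le_card h2).trans (card_union_le _ _)
      have h4 : ((S.filter (fun x => G.Adj v x)).image (fun x => s(v, x))).card ≤ D :=
        card_image_le.trans (by omega)
      calc (eS G S).card ≤ D * m + D := by omega
        _ = D * (m + 1) := by ring

lemma edges_le {r D : ℕ} (hG : NoShort G (2 * r + 1)) (hD : Fintype.card V < D ^ r) :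
    G.edgeSet.ncard ≤ D * Fintype.card V := by
  classical
  have h1 := card_eS_le hG hD (Fintype.card V) univ (card_univ)
  have h2 : G.edgeSet = (eS G univ : Set (Sym2 V)) := by
    ext e
    simp [eS]
  rw [h2, Set.ncard_coe_finset]
  exact h1

end moore

section greedy

variable {V : Type*} [Fintype V]

/-- If every graph with more than `F` edges has a cycle of length at most `g`, then a graph with
more than `F + g (k - 1)` edges has `k` edge-disjoint cycles. -/
lemma greedy (F g : ℕ) (h : ∀ G : SimpleGraph V, F < G.edgeSet.ncard → ¬ NoShort G (g + 1)) :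
    ∀ (k : ℕ) (G : SimpleGraph V), F + g * k < G.edgeSet.ncard + g → HasCycles G k := by
  intro k
  induction k with
  | zero =>
    intro G _
    exact ⟨fun i => i.elim0, fun i => i.elim0, fun i => i.elim0, fun i => i.elim0⟩
  | succ k ih =>
    intro G hG
    have h1 : F < G.edgeSet.ncard := by
      rw [Nat.mul_succ] at hG; omega
    have h2 := h G h1
    unfold NoShort at h2
    push Not at h2
    obtain ⟨v, c, hc, hlen⟩ := h2
    set G' : SimpleGraph V := G.deleteEdges {e | e ∈ c.edges} with hG'
    have hle : G' ≤ G := deleteEdges_le _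
    have h3 : G.edgeSet.ncard ≤ G'.edgeSet.ncard + g := by
      have e1 : G.edgeSet ⊆ G'.edgeSet ∪ {e | e ∈ c.edges} := by
        intro e he
        rw [hG', edgeSet_deleteEdges]
        by_cases h : e ∈ c.edges
        · exact Or.inr h
        · exact Or.inl ⟨he, h⟩
      have e2 : ({e | e ∈ c.edges} : Set (Sym2 V)).ncard ≤ g := by
        classical
        have : ({e | e ∈ c.edges} : Set (Sym2 V)) = (c.edges.toFinset : Set (Sym2 V)) := by
          ext e; simp
        rw [this, Set.ncard_coe_finset]
        have := List.toFinset_card_le c.edges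
        rw [Walk.length_edges] at this
        omega
      calc G.edgeSet.ncard ≤ (G'.edgeSet ∪ {e | e ∈ c.edges}).ncard :=
            Set.ncard_le_ncard e1 (Set.toFinite _)
        _ ≤ G'.edgeSet.ncard + ({e | e ∈ c.edges} : Set (Sym2 V)).ncard := Set.ncard_union_le _ _
        _ ≤ _ := by omega
    obtain ⟨u, d, hd, hdis⟩ := ih G' (by rw [Nat.mul_succ] at hG; omega)
    refine ⟨Fin.cons v u, Fin.cons c (fun i => (d i).mapLe hle), ?_, ?_⟩
    · intro i
      refine Fin.cases ?_ (fun i => ?_) i
      · exact hc
      · exact (Walk.isCycle_mapLe hle).2 (hd i)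
    · intro i j
      refine Fin.cases ?_ (fun i => ?_) i
      · refine Fin.cases ?_ (fun j => ?_) j
        · intro h; exact absurd rfl h
        · intro _ e he he'
          change e ∈ ((d j).mapLe hle).edges at he'
          have he'' : e ∈ (d j).edges := by rwa [Walk.edges_mapLe_eq_edges] at he'
          have := Walk.edges_subset_edgeSet _ he''
          rw [hG', edgeSet_deleteEdges] at this
          exact this.2 he
      · refine Fin.cases ?_ (fun j => ?_) j
        · intro _ e he he'
          change e ∈ ((d i).mapLe hle).edges at he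
          have he'' : e ∈ (d i).edges := by rwa [Walk.edges_mapLe_eq_edges] at he
          have := Walk.edges_subset_edgeSet _ he''
          rw [hG', edgeSet_deleteEdges] at this
          exact this.2 he'
        · intro hij e he he'
          change e ∈ ((d i).mapLe hle).edges at he
          change e ∈ ((d j).mapLe hle).edges at he'
          have he1 : e ∈ (d i).edges := by rwa [Walk.edges_mapLe_eq_edges] at he
          have he2 : e ∈ (d j).edges := by rwa [Walk.edges_mapLe_eq_edges] at he'
          exact hdis i j (fun h => hij (by rw [h])) e he1 he2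

end greedy

/-- **General upper bound**: `ex'(n,k) ≤ D n + 2 r (k - 1)` whenever `D ^ r > n`. -/
theorem exPrime_upper (n k r D : ℕ) (hk : 1 ≤ k) (hD : n < D ^ r) :
    exPrime n k ≤ D * n + 2 * r * (k - 1) := by
  apply exPrime_le
  intro G hG
  by_contra hcon
  push Not at hcon
  apply hG
  apply greedy (D * n) (2 * r)
  · intro G' h1 h2
    have := edges_le h2 (by simpa using hD)
    rw [Fintype.card_fin] at this
    omega
  · obtain ⟨k, rfl⟩ : ∃ k', k = k' + 1 := ⟨k - 1, by omega⟩
    simp only [Nat.add_sub_cancel] at hcon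
    rw [Nat.mul_succ]
    omega

end Pool.Agent.DC31
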