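import Pool.Agent.DC31.Dense

/-!
# The order of magnitude of `ex'(n,k)` (greedy graphs of large girth)
-/

namespace Pool.Agent.DC31

open Finset SimpleGraph

section ball

variable {V : Type*} [Fintype V] [DecidableEq V] {G : SimpleGraph V}

open Classical in
/-- ball -/
noncomputable def Ball (G : SimpleGraph V) (x : V) (t : ℕ) : Finset V :=
  univ.filter (fun w => ∃ p : G.Walk x w, p.length ≤ t)

open Classical in
lemma card_ball {Δ : ℕ} (hΔ : ∀ v, G.degree v ≤ Δ) :
    ∀ (t : ℕ) (x : V), (Ball G x t).card ≤ (Δ + 1) ^ t := by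
  intro t
  induction t with
  | zero =>
    intro x
    rw [pow_zero]
    apply (card_le_card (t := {x}) _).trans (by simp)
    intro w hw
    rw [Ball, mem_filter] at hw
    obtain ⟨_, p, hp⟩ := hw
    rw [mem_singleton]
    exact (Walk.eq_of_length_eq_zero (p := p) (by omega)).symm
  | succ t ih =>
    intro x
    have h1 : Ball G x (t + 1) ⊆ insert x ((G.neighborFinset x).biUnion (fun y => Ball G y t)) := by
      intro w hw
      rw [Ball, mem_filter] at hw
      obtain ⟨_, p, hp⟩ := hw
      rw [mem_insert]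
      cases p with
      | nil => exact Or.inl rfl
      | @cons _ y _ h p =>
        right
        rw [mem_biUnion]
        refine ⟨y, by simpa using h, ?_⟩
        rw [Ball, mem_filter]
        rw [Walk.length_cons] at hp
        exact ⟨mem_univ _, p, by omega⟩
    have h2 := (card_le_card h1).trans (card_insert_le _ _)
    have h3 : ((G.neighborFinset x).biUnion (fun y => Ball G y t)).card ≤ Δ * (Δ + 1) ^ t := by
      refine card_biUnion_le.trans ?_
      refine (sum_le_card_nsmul _ _ _ (fun y _ => ih y)).trans ?_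
      rw [smul_eq_mul]
      exact Nat.mul_le_mul_right _ (hΔ x)
    have h4 : 1 ≤ (Δ + 1) ^ t := Nat.one_le_pow _ _ (by omega)
    calc (Ball G x (t + 1)).card ≤ Δ * (Δ + 1) ^ t + 1 := by omega
      _ ≤ Δ * (Δ + 1) ^ t + (Δ + 1) ^ t := by omega
      _ = (Δ + 1) ^ (t + 1) := by ring

end ball

section addedge

variable {V : Type*} {G : SimpleGraph V}

/-- If adding the edge `xy` creates a short cycle then `x` and `y` are close. -/
lemma close_of_short {g : ℕ} (hG : NoShort G g) {x y : V} (hxy : x ≠ y)
    (hnot : ¬ NoShort (G ⊔ edge x y) g) : ∃ p : G.Walk x y, p.length + 2 ≤ g := by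
  classical
  unfold NoShort at hnot
  push Not at hnot
  obtain ⟨v, c, hc, hlen⟩ := hnot
  have hedge : ∀ e ∈ (G ⊔ edge x y).edgeSet, e ≠ s(x, y) → e ∈ G.edgeSet := by
    intro e he hne
    induction e with
    | _ a b =>
      rw [mem_edgeSet, sup_adj, edge_adj] at he
      rcases he with h | h
      · exact h
      · exfalso
        apply hne
        rcases h.1 with ⟨rfl, rfl⟩ | ⟨rfl, rfl⟩
        · rfl
        · exact Sym2.eq_swap
  by_cases hmem : s(x, y) ∈ c.edges
  · have hx : x ∈ c.support := Walk.fst_mem_support_of_mem_edges c hmem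
    have hc' : (c.rotate x hx).IsCycle := hc.rotate hx
    have hmem' : s(x, y) ∈ (c.rotate x hx).edges := by
      rw [(Walk.rotate_edges c x hx).mem_iff]; exact hmem
    have hy : y ∈ (c.rotate x hx).support := Walk.snd_mem_support_of_mem_edges _ hmem'
    have hl : (c.rotate x hx).length = c.length := by
      rw [← Walk.length_edges, ← Walk.length_edges]
      exact (Walk.rotate_edges c x hx).perm.length_eq
    set d := c.rotate x hx with hd
    have hspec := Walk.take_spec d hy
    have hlsum : (d.takeUntil y hy).length + (d.dropUntil y hy).length = d.length := by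
      rw [← Walk.length_append, hspec]
    have hnd : ((d.takeUntil y hy).edges ++ (d.dropUntil y hy).edges).Nodup := by
      rw [← Walk.edges_append, hspec]
      exact hc'.isTrail.edges_nodup
    have hpos1 : 0 < (d.takeUntil y hy).length := by
      rw [Nat.pos_iff_ne_zero]
      intro h
      exact hxy (Walk.eq_of_length_eq_zero h)
    have hpos2 : 0 < (d.dropUntil y hy).length := by
      rw [Nat.pos_iff_ne_zero]
      intro h
      exact hxy (Walk.eq_of_length_eq_zero h).symm
    by_cases h1 : s(x, y) ∈ (d.takeUntil y hy).edges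
    · have h2 : s(x, y) ∉ (d.dropUntil y hy).edges := by
        intro h2
        exact (List.nodup_append.1 hnd).2.2 _ h1 _ h2 rfl
      have h3 : ∀ e ∈ (d.dropUntil y hy).edges, e ∈ G.edgeSet := by
        intro e he
        apply hedge e (Walk.edges_subset_edgeSet _ he)
        rintro rfl
        exact h2 he
      refine ⟨((d.dropUntil y hy).transfer G h3).reverse, ?_⟩
      rw [Walk.length_reverse, Walk.length_transfer]
      omega
    · have h3 : ∀ e ∈ (d.takeUntil y hy).edges, e ∈ G.edgeSet := by
        intro e he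
        apply hedge e (Walk.edges_subset_edgeSet _ he)
        rintro rfl
        exact h1 he
      refine ⟨(d.takeUntil y hy).transfer G h3, ?_⟩
      rw [Walk.length_transfer]
      omega
  · exfalso
    have h3 : ∀ e ∈ c.edges, e ∈ G.edgeSet := by
      intro e he
      apply hedge e (Walk.edges_subset_edgeSet _ he)
      rintro rfl
      exact hmem he
    have h4 := hG v (c.transfer G h3) (hc.transfer h3)
    rw [Walk.length_transfer] at h4
    omega

end addedge

open Classical in
/-- **Greedy (Erdős–Sachs type) graphs.** -/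
lemma exists_greedy_graph (n g Δ : ℕ) (hg : 3 ≤ g) (hn : 2 * (Δ + 1) ^ (g - 2) ≤ n) :
    ∃ G : SimpleGraph (Fin n), NoShort G g ∧ n * Δ ≤ 4 * G.edgeSet.ncard := by
  set S : Set (SimpleGraph (Fin n)) := {G | NoShort G g ∧ ∀ v, G.degree v ≤ Δ} with hS
  have hfin : S.Finite := Set.toFinite _
  have hne : S.Nonempty := by
    refine ⟨⊥, ?_, ?_⟩
    · intro v c hc
      exact absurd rfl hc.ne_bot
    · intro v; simp
  obtain ⟨G, hG⟩ := hfin.exists_maximal hne
  obtain ⟨⟨hGs, hGd⟩, hmax⟩ := hG
  refine ⟨G, hGs, ?_⟩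
  set U : Finset (Fin n) := univ.filter (fun v => G.degree v < Δ) with hU
  have hUcard : U.card ≤ (Δ + 1) ^ (g - 2) := by
    rcases U.eq_empty_or_nonempty with h | ⟨x, hx⟩
    · rw [h]; simp
    · refine (card_le_card (t := Ball G x (g - 2)) ?_).trans (card_ball hGd _ _)
      intro y hy
      rw [Ball, mem_filter]
      refine ⟨mem_univ _, ?_⟩
      by_cases hxy : x = y
      · subst hxy; exact ⟨Walk.nil, by simp⟩
      by_cases hadj : G.Adj x y
      · exact ⟨Walk.cons hadj Walk.nil, by simp; omega⟩
      · have hnot : ¬ NoShort (G ⊔ edge x y) g := by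
          intro hns
          have hmem : (G ⊔ edge x y) ∈ S := by
            refine ⟨hns, fun v => ?_⟩
            have hxU : G.degree x < Δ := by simpa [hU] using hx
            have hyU : G.degree y < Δ := by simpa [hU] using hy
            by_cases hvx : v = x
            · subst hvx
              have : (G ⊔ edge v y).neighborFinset v ⊆ insert y (G.neighborFinset v) := by
                intro w hw
                rw [mem_neighborFinset, sup_adj, edge_adj] at hw
                rw [mem_insert, mem_neighborFinset]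
                rcases hw with h | h
                · exact Or.inr h
                · rcases h.1 with ⟨_, rfl⟩ | ⟨h1, h2⟩
                  · exact Or.inl rfl
                  · exact absurd h1 hxy
              have h2 := (card_le_card this).trans (card_insert_le _ _)
              rw [card_neighborFinset_eq_degree, card_neighborFinset_eq_degree] at h2
              have h5 : (G ⊔ edge v y).degree v ≤ Δ := by omega
              exact (congrArg (fun i => @SimpleGraph.degree _ (G ⊔ edge v y) v i)
                (Subsingleton.elim _ _)).trans_le h5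
            · by_cases hvy : v = y
              · subst hvy
                have : (G ⊔ edge x v).neighborFinset v ⊆ insert x (G.neighborFinset v) := by
                  intro w hw
                  rw [mem_neighborFinset, sup_adj, edge_adj] at hw
                  rw [mem_insert, mem_neighborFinset]
                  rcases hw with h | h
                  · exact Or.inr h
                  · rcases h.1 with ⟨h1, _⟩ | ⟨_, h2⟩
                    · exact absurd h1.symm hxy
                    · exact Or.inl h2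
                have h2 := (card_le_card this).trans (card_insert_le _ _)
                rw [card_neighborFinset_eq_degree, card_neighborFinset_eq_degree] at h2
                have h5 : (G ⊔ edge x v).degree v ≤ Δ := by omega
                exact (congrArg (fun i => @SimpleGraph.degree _ (G ⊔ edge x v) v i)
                  (Subsingleton.elim _ _)).trans_le h5
              · have : (G ⊔ edge x y).neighborFinset v ⊆ G.neighborFinset v := by
                  intro w hw
                  rw [mem_neighborFinset, sup_adj, edge_adj] at hw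
                  rw [mem_neighborFinset]
                  rcases hw with h | h
                  · exact h
                  · rcases h.1 with ⟨h1, _⟩ | ⟨h1, _⟩
                    · exact absurd h1 hvx
                    · exact absurd h1 hvy
                have h2 := card_le_card this
                rw [card_neighborFinset_eq_degree, card_neighborFinset_eq_degree] at h2
                have h5 : (G ⊔ edge x y).degree v ≤ Δ := h2.trans (hGd v)
                exact (congrArg (fun i => @SimpleGraph.degree _ (G ⊔ edge x y) v i)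
                  (Subsingleton.elim _ _)).trans_le h5
          have h1 := hmax hmem le_sup_left
          apply hadj
          apply h1
          rw [sup_adj, edge_adj]
          exact Or.inr ⟨Or.inl ⟨rfl, rfl⟩, hxy⟩
        obtain ⟨p, hp⟩ := close_of_short hGs hxy hnot
        exact ⟨p, by omega⟩
  have hsum := G.sum_degrees_eq_twice_card_edges
  have h1 : Δ * (univ.filter (fun v => ¬ G.degree v < Δ)).card ≤ ∑ v, G.degree v := by
    calc Δ * (univ.filter (fun v => ¬ G.degree v < Δ)).card
        = ∑ v ∈ univ.filter (fun v => ¬ G.degree v < Δ), Δ := by simp [mul_comm]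
      _ ≤ ∑ v ∈ univ.filter (fun v => ¬ G.degree v < Δ), G.degree v := by
          apply sum_le_sum
          intro v hv
          simpa using hv
      _ ≤ ∑ v, G.degree v := sum_le_sum_of_subset (filter_subset _ _)
  have h2 : U.card + (univ.filter (fun v => ¬ G.degree v < Δ)).card = n := by
    rw [hU, card_filter_add_card_filter_not]
    simp
  have h3 : G.edgeSet.ncard = #G.edgeFinset := by
    rw [← Set.ncard_coe_finset, coe_edgeFinset]
  rw [h3]
  have h4 : n ≤ 2 * (univ.filter (fun v => ¬ G.degree v < Δ)).card := by omega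
  calc n * Δ ≤ (2 * (univ.filter (fun v => ¬ G.degree v < Δ)).card) * Δ :=
        Nat.mul_le_mul_right _ h4
    _ = 2 * (Δ * (univ.filter (fun v => ¬ G.degree v < Δ)).card) := by ring
    _ ≤ 2 * ∑ v, G.degree v := Nat.mul_le_mul_left _ h1
    _ = 4 * #G.edgeFinset := by rw [hsum]; ring

/-- a star -/
lemma lower_star (n k : ℕ) (hk : 1 ≤ k) (hn : 1 ≤ n) : n - 1 ≤ exPrime n k := by
  have hno : NoShort (incG (fun (_ : Fin 1) (_ : Fin (n - 1)) => True)) n := by
    intro v c hc
    exfalso
    have h4 := noShort4 _ v c hc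
    have hi := hc.getVert_injOn'
    have a0 := c.adj_getVert_succ (i := 0) (by omega)
    have a1 := c.adj_getVert_succ (i := 1) (by omega)
    have a2 := c.adj_getVert_succ (i := 2) (by omega)
    have n1 : c.getVert 0 ≠ c.getVert 2 := by
      intro h
      have := hi (by simp) (by simp; omega) h
      omega
    have n2 : c.getVert 1 ≠ c.getVert 3 := by
      intro h
      have := hi (by simp; omega) (by simp; omega) h
      omega
    rcases h0 : c.getVert 0 with p0 | l0 <;> rcases h1 : c.getVert 1 with p1 | l1 <;>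
      rcases h2 : c.getVert 2 with p2 | l2 <;> rcases h3 : c.getVert 3 with p3 | l3 <;>
      rw [h0] at a0 n1 <;> rw [h1] at a0 a1 n2 <;> rw [h2] at a1 a2 n1 <;> rw [h3] at a2 n2 <;>
      simp only [incG] at a0 a1 a2
    · exact n1 (by rw [Subsingleton.elim p0 p2])
    · exact n2 (by rw [Subsingleton.elim p1 p3])
  apply lower_of_noShort (V := Fin 1 ⊕ Fin (n - 1)) (by simp; omega) _ hno
  · have h1 : Set.range (fun x : Fin (n - 1) => (s(Sum.inl 0, Sum.inr x) :
        Sym2 (Fin 1 ⊕ Fin (n - 1)))) ⊆ (incG (fun (_ : Fin 1) (_ : Fin (n - 1)) => True)).edgeSet := by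
      rintro _ ⟨x, rfl⟩
      exact trivial
    have h2 := Set.ncard_le_ncard h1 (Set.toFinite _)
    refine le_trans (le_of_eq ?_) h2
    rw [← Set.image_univ, Set.ncard_image_of_injective, Set.ncard_univ]
    · simp
    · intro x x' h
      simpa using h
  · have : n * 1 ≤ n * k := Nat.mul_le_mul_left _ hk
    omega

/-- lower bound from the greedy graphs -/
lemma lower_greedy (n k g Δ : ℕ) (hk : 1 ≤ k) (hg : 3 ≤ g) (hn : 2 * (Δ + 1) ^ (g - 2) ≤ n) :
    ∃ e : ℕ, n * Δ ≤ 4 * e ∧ min (g * k - 1) e ≤ exPrime n k := by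
  obtain ⟨G, hG, he⟩ := exists_greedy_graph n g Δ hg hn
  refine ⟨_, he, ?_⟩
  apply lower_of_noShort (by simp) G hG
  · exact min_le_right _ _
  · have h1 : min (g * k - 1) G.edgeSet.ncard ≤ g * k - 1 := min_le_left _ _
    have h2 : 1 ≤ g * k := Nat.mul_pos (by omega) hk
    omega

/-- **Lower bound in all ranges.** -/
theorem order_lower (n k : ℕ) (hk : 1 ≤ k) (h16 : 16 * k ≤ n ^ 2) :
    ∃ r : ℕ, 1 ≤ r ∧ r * k + (n : ℝ) ^ (1 + 1 / (r : ℝ)) ≤ 128 * exPrime n k := by
  classical
  have hn4 : 4 ≤ n := by
    by_contra hlt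
    push Not at hlt
    have : n ^ 2 ≤ 3 ^ 2 := Nat.pow_le_pow_left (by omega) 2
    omega
  have hn0 : (0 : ℝ) < n := by positivity
  have hn4' : (4 : ℝ) ≤ n := by exact_mod_cast hn4
  have hk1 : (1 : ℝ) ≤ k := by exact_mod_cast hk
  have h16' : 16 * (k : ℝ) ≤ (n : ℝ) ^ 2 := by exact_mod_cast h16
  have hex : ∃ s : ℕ, (n : ℝ) ^ (1 + 1 / ((s + 1 : ℕ) : ℝ)) ≤ ((s + 1 : ℕ) : ℝ) * k := by
    refine ⟨n ^ 2, ?_⟩
    have h1 : (n : ℝ) ^ (1 + 1 / ((n ^ 2 + 1 : ℕ) : ℝ)) ≤ (n : ℝ) ^ (2 : ℝ) := by
      apply Real.rpow_le_rpow_of_exponent_le (by linarith)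
      have : 1 / ((n ^ 2 + 1 : ℕ) : ℝ) ≤ 1 := by
        rw [div_le_one (by positivity)]
        push_cast
        nlinarith
      linarith
    have h2 : (n : ℝ) ^ (2 : ℝ) = (n : ℝ) ^ 2 := by
      exact_mod_cast Real.rpow_natCast (n : ℝ) 2
    rw [h2] at h1
    push_cast at h1 ⊢
    nlinarith
  set s := Nat.find hex with hs
  have hs1 : (n : ℝ) ^ (1 + 1 / ((s + 1 : ℕ) : ℝ)) ≤ ((s + 1 : ℕ) : ℝ) * k := Nat.find_spec hex
  have hspos : 1 ≤ s := by
    by_contra h0
    have h0' : s = 0 := by omega
    rw [h0'] at hs1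
    norm_num at hs1
    nlinarith
  have hs2 : (s : ℝ) * k < (n : ℝ) ^ (1 + 1 / (s : ℝ)) := by
    have h1 := Nat.find_min hex (m := s - 1) (by omega)
    push Not at h1
    have h2 : s - 1 + 1 = s := by omega
    rw [h2] at h1
    exact h1
  have hs0 : (1 : ℝ) ≤ s := by exact_mod_cast hspos
  refine ⟨s + 1, by omega, ?_⟩
  have htot : ((s + 1 : ℕ) : ℝ) * k + (n : ℝ) ^ (1 + 1 / ((s + 1 : ℕ) : ℝ)) ≤ 4 * (s * k) := by
    push_cast at hs1 ⊢
    nlinarith
  refine htot.trans ?_
  have hpow : (n : ℝ) ^ (1 + 1 / (s : ℝ)) = n * (n : ℝ) ^ (1 / (s : ℝ)) := by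
    rw [Real.rpow_add hn0, Real.rpow_one]
  have h2s : (2 : ℝ) ^ (1 / (s : ℝ)) ≤ 2 := by
    calc (2 : ℝ) ^ (1 / (s : ℝ)) ≤ (2 : ℝ) ^ (1 : ℝ) := by
          apply Real.rpow_le_rpow_of_exponent_le (by norm_num)
          rw [div_le_one (by linarith)]
          exact hs0
      _ = 2 := Real.rpow_one 2
  by_cases hcase : 2 * 2 ^ s ≤ n
  · set y : ℝ := ((n : ℝ) / 2) ^ (1 / (s : ℝ)) with hy
    have hy0 : 0 ≤ y := by positivity
    have hys : y ^ s = n / 2 := by
      rw [hy, ← Real.rpow_natCast, ← Real.rpow_mul (by positivity), one_div,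
        inv_mul_cancel₀ (by positivity), Real.rpow_one]
    have hy2 : 2 ≤ y := by
      by_contra hlt
      push Not at hlt
      have h1 : y ^ s < 2 ^ s := pow_lt_pow_left₀ hlt hy0 (by omega)
      have h2 : (2 : ℝ) * 2 ^ s ≤ n := by exact_mod_cast hcase
      rw [hys] at h1
      linarith
    have hny : (n : ℝ) ^ (1 / (s : ℝ)) ≤ 2 * y := by
      have : (n : ℝ) = 2 * (n / 2) := by ring
      calc (n : ℝ) ^ (1 / (s : ℝ)) = (2 * ((n : ℝ) / 2)) ^ (1 / (s : ℝ)) := by rw [← this]
        _ = (2 : ℝ) ^ (1 / (s : ℝ)) * y := Real.mul_rpow (by norm_num) (by positivity)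
        _ ≤ 2 * y := mul_le_mul_of_nonneg_right h2s hy0
    set Δ := ⌊y⌋₊ - 1 with hΔ
    have hfl : 2 ≤ ⌊y⌋₊ := by
      rw [Nat.le_floor_iff hy0]; exact_mod_cast hy2
    have hΔ1 : Δ + 1 = ⌊y⌋₊ := by omega
    have hle : ((⌊y⌋₊ : ℕ) : ℝ) ≤ y := Nat.floor_le hy0
    have hΔpow : 2 * (Δ + 1) ^ s ≤ n := by
      have h1 : ((⌊y⌋₊ : ℕ) : ℝ) ^ s ≤ y ^ s := pow_le_pow_left₀ (by positivity) hle s
      rw [hys] at h1
      have h2 : (2 : ℝ) * ((⌊y⌋₊ : ℕ) : ℝ) ^ s ≤ n := by linarith
      rw [hΔ1]
      exact_mod_cast h2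
    have hΔy : y ≤ 4 * Δ := by
      have h1 := Nat.lt_floor_add_one y
      have h2 : ((Δ + 1 : ℕ) : ℝ) = ((⌊y⌋₊ : ℕ) : ℝ) := by rw [hΔ1]
      have h3 : (2 : ℝ) ≤ ((⌊y⌋₊ : ℕ) : ℝ) := by exact_mod_cast hfl
      push_cast at h2
      linarith
    obtain ⟨e, he, hmin⟩ := lower_greedy n k (s + 2) Δ hk (by omega) (by simpa using hΔpow)
    have he' : (n : ℝ) * Δ ≤ 4 * e := by exact_mod_cast he
    have h5 : (s : ℝ) * k ≤ 32 * e := by
      have h6 : (n : ℝ) * (n : ℝ) ^ (1 / (s : ℝ)) ≤ n * (8 * Δ) :=
        mul_le_mul_of_nonneg_left (by linarith) hn0.le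
      rw [hpow] at hs2
      nlinarith
    rcases min_le_iff.1 (le_refl (min ((s + 2) * k - 1) e)) with h | h
    · have h7 : (s + 2) * k - 1 ≤ exPrime n k := h.trans hmin
      have h8 : s * k ≤ exPrime n k := by
        have : (s + 2) * k = s * k + 2 * k := by ring
        omega
      have h9 : (s : ℝ) * k ≤ exPrime n k := by exact_mod_cast h8
      have : (0 : ℝ) ≤ (exPrime n k : ℝ) := by positivity
      linarith
    · have h7 : e ≤ exPrime n k := h.trans hmin
      have h8 : (e : ℝ) ≤ exPrime n k := by exact_mod_cast h7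
      linarith
  · push Not at hcase
    have h1 : (n : ℝ) ^ (1 / (s : ℝ)) ≤ 4 := by
      have h2 : (n : ℝ) ≤ 2 * 2 ^ s := by exact_mod_cast hcase.le
      calc (n : ℝ) ^ (1 / (s : ℝ)) ≤ (2 * (2 : ℝ) ^ s) ^ (1 / (s : ℝ)) :=
            Real.rpow_le_rpow hn0.le h2 (by positivity)
        _ = (2 : ℝ) ^ (1 / (s : ℝ)) * ((2 : ℝ) ^ s) ^ (1 / (s : ℝ)) :=
            Real.mul_rpow (by norm_num) (by positivity)
        _ = (2 : ℝ) ^ (1 / (s : ℝ)) * 2 := by
            congr 1
            rw [one_div]
            exact Real.pow_rpow_inv_natCast (by norm_num) (by omega)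
        _ ≤ 2 * 2 := mul_le_mul_of_nonneg_right h2s (by norm_num)
        _ = 4 := by norm_num
    have h3 : (s : ℝ) * k < 4 * n := by
      rw [hpow] at hs2
      nlinarith
    have h4 := lower_star n k hk (by omega)
    have h5 : ((n - 1 : ℕ) : ℝ) ≤ exPrime n k := by exact_mod_cast h4
    rw [Nat.cast_sub (by omega)] at h5
    push_cast at h5
    linarith

/-- **Upper bound in all ranges.** -/
theorem order_upper (n k r : ℕ) (hk : 1 ≤ k) (hr : 1 ≤ r) :
    (exPrime n k : ℝ) ≤ 2 * (r * k + (n : ℝ) ^ (1 + 1 / (r : ℝ))) := by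
  have h := upper_real n k r hk hr
  have hr1 : (1 : ℝ) ≤ r := by exact_mod_cast hr
  have h1 : (n : ℝ) ≤ (n : ℝ) ^ (1 + 1 / (r : ℝ)) := by
    rcases Nat.eq_zero_or_pos n with rfl | hn
    · simp only [Nat.cast_zero]; positivity
    · have hn1 : (1 : ℝ) ≤ n := by exact_mod_cast hn
      calc (n : ℝ) = (n : ℝ) ^ (1 : ℝ) := (Real.rpow_one _).symm
        _ ≤ _ := Real.rpow_le_rpow_of_exponent_le hn1 (by
            have : 0 ≤ 1 / (r : ℝ) := by positivity
            linarith)
  nlinarith

end Pool.Agent.DC31
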